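import Pool.Agent.Helper88.Leg.Planar

/-!
# The comb mosaic
-/

namespace Pool.Agent.Helper88.Leg

/-- the tiles of the comb mosaic left of the middle -/
def combL (n : ℤ) (c r : ℤ) : Tile :=
  if c = 0 then (if r = n - 1 then .lc false else .dn false)
  else if (c - r) % 2 = 1 then
    (if c = 1 then .lc true else if r = n - 1 then .cap true else .cc true true)
  else
    (if c = 1 then (if r = n - 1 then .up true else .cup true)
      else if r = n - 1 then .lc false else .cc false false)

/-- the tiles of the comb mosaic in the middle column -/
def combM (n : ℤ) (c : ℤ) : Tile :=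
  if c = 0 then .cup false else if c = 1 then .cup true else if c = n - 1 then .blank
  else .cc false false

/-- the tiles of the comb mosaic right of the middle -/
def combR (n : ℤ) (c r : ℤ) : Tile :=
  if r = 0 then (if c = n - 1 then .rc false else .up false)
  else if (c - r) % 2 = 1 then
    (if r = 1 then .rc true else if c = n - 1 then .cap true else .cc true true)
  else
    (if r = 1 then (if c = n - 1 then .dn true else .cup true)
      else if c = n - 1 then .rc false else .cc false false)

/-- the tiles of the comb mosaic -/
def combTile (n : ℤ) (c r : ℤ) : Tile :=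
  if 0 ≤ c ∧ c < n ∧ 0 ≤ r ∧ r < n then
    (if c < r then combL n c r else if c = r then combM n c else combR n c r)
  else .blank

lemma comb_out {n c r : ℤ} (h : ¬ (0 ≤ c ∧ c < n ∧ 0 ≤ r ∧ r < n)) :
    combTile n c r = .blank := if_neg h

lemma comb_L {n c r : ℤ} (h1 : 0 ≤ c) (h2 : r < n) (h3 : c < r) :
    combTile n c r = combL n c r := by
  unfold combTile; rw [if_pos (by omega), if_pos h3]

lemma comb_M {n c : ℤ} (h1 : 0 ≤ c) (h2 : c < n) : combTile n c c = combM n c := by
  unfold combTile; rw [if_pos (by omega), if_neg (by omega), if_pos rfl]

lemma comb_R {n c r : ℤ} (h1 : 0 ≤ r) (h2 : c < n) (h3 : r < c) :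
    combTile n c r = combR n c r := by
  unfold combTile; rw [if_pos (by omega), if_neg (by omega), if_neg (by omega)]

lemma comb_hor (m : ℤ) (hm : 3 ≤ m) (c r : ℤ) :
    (combTile (2 * m) c r).ne = (combTile (2 * m) (c + 1) r).sw := by
  by_cases h1 : 0 ≤ c ∧ c < 2 * m ∧ 0 ≤ r ∧ r < 2 * m
  · by_cases h2 : c + 1 < 2 * m
    · rcases lt_trichotomy c r with h | rfl | h
      · rcases lt_or_eq_of_le (show c + 1 ≤ r by omega) with h' | rfl
        · rw [comb_L (by omega) (by omega) h, comb_L (by omega) (by omega) h']
          unfold combL
          split_ifs <;> first | rfl | (exfalso; omega)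
        · rw [comb_L (by omega) (by omega) h, comb_M (by omega) (by omega)]
          unfold combL combM
          split_ifs <;> first | rfl | (exfalso; omega)
      · rw [comb_M (by omega) (by omega), comb_R (by omega) (by omega) (by omega)]
        unfold combR combM
        split_ifs <;> first | rfl | (exfalso; omega)
      · rw [comb_R (by omega) (by omega) h, comb_R (by omega) (by omega) (by omega)]
        unfold combR
        split_ifs <;> first | rfl | (exfalso; omega)
    · rw [comb_out (c := c + 1) (by omega)]
      obtain rfl : c = 2 * m - 1 := by omega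
      rcases lt_or_eq_of_le (show r ≤ 2 * m - 1 by omega) with h' | rfl
      · rw [comb_R (by omega) (by omega) h']
        unfold combR
        split_ifs <;> first | rfl | (exfalso; omega)
      · rw [comb_M (by omega) (by omega)]
        unfold combM
        split_ifs <;> first | rfl | (exfalso; omega)
  · rw [comb_out h1]
    by_cases h2 : 0 ≤ c + 1 ∧ c + 1 < 2 * m ∧ 0 ≤ r ∧ r < 2 * m
    · obtain rfl : c = -1 := by omega
      rcases lt_or_eq_of_le (show 0 ≤ r by omega) with h' | rfl
      · rw [comb_L (by omega) (by omega) (by omega)]
        unfold combL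
        split_ifs <;> first | rfl | (exfalso; omega)
      · rw [show (-1 : ℤ) + 1 = 0 by norm_num, comb_M (by omega) (by omega)]
        rfl
    · rw [comb_out h2]; rfl

lemma comb_ver (m : ℤ) (hm : 3 ≤ m) (c r : ℤ) :
    (combTile (2 * m) c r).nw = (combTile (2 * m) c (r + 1)).se := by
  by_cases h1 : 0 ≤ c ∧ c < 2 * m ∧ 0 ≤ r ∧ r < 2 * m
  · by_cases h2 : r + 1 < 2 * m
    · rcases lt_trichotomy c r with h | rfl | h
      · rw [comb_L (by omega) (by omega) h, comb_L (by omega) (by omega) (by omega)]
        unfold combL
        split_ifs <;> first | rfl | (exfalso; omega)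
      · rw [comb_M (by omega) (by omega), comb_L (by omega) (by omega) (by omega)]
        unfold combL combM
        split_ifs <;> first | rfl | (exfalso; omega)
      · rcases lt_or_eq_of_le (show r + 1 ≤ c by omega) with h' | rfl
        · rw [comb_R (by omega) (by omega) h, comb_R (by omega) (by omega) h']
          unfold combR
          split_ifs <;> first | rfl | (exfalso; omega)
        · rw [comb_R (by omega) (by omega) h, comb_M (by omega) (by omega)]
          unfold combR combM
          split_ifs <;> first | rfl | (exfalso; omega)
    · rw [comb_out (r := r + 1) (by omega)]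
      obtain rfl : r = 2 * m - 1 := by omega
      rcases lt_or_eq_of_le (show c ≤ 2 * m - 1 by omega) with h' | rfl
      · rw [comb_L (by omega) (by omega) h']
        unfold combL
        split_ifs <;> first | rfl | (exfalso; omega)
      · rw [comb_M (by omega) (by omega)]
        unfold combM
        split_ifs <;> first | rfl | (exfalso; omega)
  · rw [comb_out h1]
    by_cases h2 : 0 ≤ c ∧ c < 2 * m ∧ 0 ≤ r + 1 ∧ r + 1 < 2 * m
    · obtain rfl : r = -1 := by omega
      rcases lt_or_eq_of_le (show 0 ≤ c by omega) with h' | rfl
      · rw [comb_R (by omega) (by omega) (by omega)]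
        unfold combR
        split_ifs <;> first | rfl | (exfalso; omega)
      · rw [show (-1 : ℤ) + 1 = 0 by norm_num, comb_M (by omega) (by omega)]
        rfl
    · rw [comb_out h2]; rfl

/-- the comb mosaic of size `2 m` -/
def comb (m : ℕ) (hm : 3 ≤ m) : Mosaic (2 * m) where
  tile := combTile (2 * m)
  blank := fun c r h => comb_out (by push_cast at h; exact h)
  hor := comb_hor m (by exact_mod_cast hm)
  ver := comb_ver m (by exact_mod_cast hm)

end Pool.Agent.Helper88.Leg
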