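import Pool.Agent.Helper88.Leg.Comb

/-!
# The front word of the comb mosaic
-/

namespace Pool.Agent.Helper88.Leg

lemma colWord_append (L L' : List Tile) : ∀ o : ℕ,
    colWord o (L ++ L') = colWord o L ++ colWord (o + (L.map Tile.outs).sum) L' := by
  induction L with
  | nil => intro o; simp [colWord]
  | cons T L ih =>
    intro o
    simp only [List.cons_append, colWord, ih, List.map_cons, List.sum_cons, List.append_assoc,
      Nat.add_assoc]

lemma colWord_blanks (L : List Tile) (hL : ∀ T ∈ L, T = .blank) : ∀ o : ℕ, colWord o L = [] := by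
  induction L with
  | nil => intro o; rfl
  | cons T L ih =>
    intro o
    have h1 : T = .blank := hL T (by simp)
    subst h1
    simp only [colWord, Tile.evs, List.nil_append]
    exact ih (fun T hT => hL T (by simp [hT])) _

lemma outs_blanks (L : List Tile) (hL : ∀ T ∈ L, T = .blank) : (L.map Tile.outs).sum = 0 := by
  induction L with
  | nil => rfl
  | cons T L ih =>
    have h1 : T = .blank := hL T (by simp)
    subst h1
    simp only [List.map_cons, List.sum_cons, Tile.outs, zero_add]
    exact ih (fun T hT => hL T (by simp [hT]))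

/-- removing the blank tiles at both ends of a column -/
lemma col_trim (f : ℕ → Tile) (n a len : ℕ) (h : a + len ≤ n) (hl : ∀ t < a, f t = .blank)
    (hr : ∀ t, a + len ≤ t → t < n → f t = .blank) :
    colWord 0 ((List.range n).map f) = colWord 0 ((List.range len).map (fun t => f (a + t))) := by
  obtain ⟨b, rfl⟩ := Nat.exists_eq_add_of_le h
  rw [List.range_add, List.range_add, List.map_append, List.map_append, List.map_map,
    List.map_map, List.append_assoc, colWord_append, colWord_append]
  have h1 : ∀ T ∈ (List.range a).map f, T = .blank := by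
    intro T hT
    obtain ⟨t, ht, rfl⟩ := List.mem_map.1 hT
    exact hl t (List.mem_range.1 ht)
  have h2 : ∀ T ∈ (List.range b).map (f ∘ fun x => a + len + x), T = .blank := by
    intro T hT
    obtain ⟨t, ht, rfl⟩ := List.mem_map.1 hT
    have ht' := List.mem_range.1 ht
    exact hr (a + len + t) (by omega) (by omega)
  rw [colWord_blanks _ h1, colWord_blanks _ h2, outs_blanks _ h1]
  simp only [List.nil_append, List.append_nil, add_zero]
  rfl

lemma colWord_cc (b : Bool) (j : ℕ) : ∀ o : ℕ, colWord o (List.replicate j (.cc b b)) = Db b o j := by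
  induction j with
  | zero => intro o; rfl
  | succ j ih =>
    intro o
    rw [List.replicate_succ, Db_succ']
    simp only [colWord, Tile.evs, Tile.outs, ih]

lemma outs_cc (b : Bool) (j : ℕ) :
    ((List.replicate j (Tile.cc b b)).map Tile.outs).sum = 2 * j := by
  rw [List.map_replicate, List.sum_replicate]
  simp [Tile.outs, mul_comm]

/-- the pattern of a column -/
lemma col_pattern (f : ℕ → Tile) (n a j : ℕ) (T₀ T₁ T₂ : Tile) (b : Bool) (h : a + (j + 3) ≤ n)
    (hl : ∀ t < a, f t = .blank) (h0 : f a = T₀) (h1 : f (a + 1) = T₁)
    (hc : ∀ t < j, f (a + 2 + t) = .cc b b) (h2 : f (a + 2 + j) = T₂)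
    (hr : ∀ t, a + (j + 3) ≤ t → t < n → f t = .blank) :
    colWord 0 ((List.range n).map f) =
      T₀.evs 0 ++ T₁.evs T₀.outs ++ Db b (T₀.outs + T₁.outs) j ++
        T₂.evs (T₀.outs + T₁.outs + 2 * j) := by
  rw [col_trim f n a (j + 3) h hl hr]
  have e : (List.range (j + 3)).map (fun t => f (a + t)) =
      [T₀, T₁] ++ List.replicate j (.cc b b) ++ [T₂] := by
    rw [show j + 3 = 2 + j + 1 by ring, List.range_succ, List.map_append, List.range_add,
      List.map_append, List.map_map]
    congr 1
    · congr 1
      · simp [List.range_succ, h0, h1]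
      · rw [List.eq_replicate_iff]
        refine ⟨by simp, ?_⟩
        intro T hT
        obtain ⟨t, ht, rfl⟩ := List.mem_map.1 hT
        have := hc t (List.mem_range.1 ht)
        simp only [Function.comp]
        rw [← this]
        congr 1
        ring
    · simp only [List.map_cons, List.map_nil]
      rw [← h2]
      congr 2
      ring
  rw [e, colWord_append, colWord_append, colWord_cc, List.map_append, List.sum_append, outs_cc]
  simp only [colWord, List.map_cons, List.map_nil, List.sum_cons, List.sum_nil, zero_add,
    add_zero, List.append_nil, List.append_assoc]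

/-- the word of column `k` of the comb mosaic -/
def cw (m : ℕ) (hm : 3 ≤ m) (k : ℕ) : List Ev :=
  colWord 0 ((comb m hm).col ((k : ℤ) - (((2 * m : ℕ) : ℤ) - 1)))

lemma comb_word (m : ℕ) (hm : 3 ≤ m) :
    (comb m hm).word = (List.range (2 * (2 * m) - 1)).flatMap (cw m hm) := rfl

/-- the number of zigzags starting in column `k` -/
def hh (m k : ℕ) : ℕ := min (k - 1) (4 * m - 4 - k)

lemma cw_zero (m : ℕ) (hm : 3 ≤ m) : cw m hm 0 = [(.l false, 0)] := by
  unfold cw Mosaic.col
  rw [col_trim _ (2 * m) 0 1 (by omega)]
  · simp only [List.range_one, List.map_cons, List.map_nil, colWord, comb]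
    rw [comb_L (by omega) (by omega) (by omega)]
    unfold combL
    rw [if_pos (by omega), if_pos (by push_cast; omega)]
    rfl
  · intro t ht; omega
  · intro t ht ht'
    exact comb_out (by omega)

lemma cw_last (m : ℕ) (hm : 3 ≤ m) : cw m hm (4 * m - 2) = [(.r false, 0)] := by
  unfold cw Mosaic.col
  rw [col_trim _ (2 * m) (2 * m - 1) 1 (by omega)]
  · simp only [List.range_one, List.map_cons, List.map_nil, colWord, comb]
    rw [comb_R (by omega) (by omega) (by omega)]
    unfold combR
    rw [if_pos (by omega), if_pos (by omega)]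
    rfl
  · intro t ht
    exact comb_out (by omega)
  · intro t ht ht'
    omega

lemma cw_one (m : ℕ) (hm : 3 ≤ m) : cw m hm 1 = [] := by
  unfold cw Mosaic.col
  rw [col_trim _ (2 * m) 0 2 (by omega)]
  · simp only [List.range_succ, List.range_zero, List.map_cons, List.map_nil, List.nil_append,
      List.cons_append, colWord, comb]
    rw [comb_L (by omega) (by omega) (by omega), comb_L (by omega) (by omega) (by omega)]
    unfold combL
    rw [if_pos (by omega), if_neg (by omega), if_neg (by omega), if_neg (by omega),
      if_pos (by omega), if_pos (by omega)]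
    rfl
  · intro t ht; omega
  · intro t ht ht'
    exact comb_out (by omega)

lemma cw_last_one (m : ℕ) (hm : 3 ≤ m) : cw m hm (4 * m - 3) = [] := by
  unfold cw Mosaic.col
  rw [col_trim _ (2 * m) (2 * m - 2) 2 (by omega)]
  · simp only [List.range_succ, List.range_zero, List.map_cons, List.map_nil, List.nil_append,
      List.cons_append, colWord, comb]
    rw [comb_R (by omega) (by omega) (by omega), comb_R (by omega) (by omega) (by omega)]
    unfold combR
    rw [if_pos (by omega), if_neg (by omega), if_neg (by omega), if_neg (by omega),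
      if_pos (by omega), if_pos (by omega)]
    rfl
  · intro t ht
    exact comb_out (by omega)
  · intro t ht ht'
    omega

/-- left half, even columns -/
lemma cw_Le (m : ℕ) (hm : 3 ≤ m) (k : ℕ) (h1 : 2 ≤ k) (h2 : k ≤ 2 * m - 2) (hk : k % 2 = 0) :
    cw m hm k = [(.l true, 1)] ++ Db true 3 (k - 2) := by
  unfold cw Mosaic.col
  rw [col_pattern _ (2 * m) 0 (k - 2) (.dn false) (.lc true) (.cap true) true (by omega)]
  · simp [Tile.evs, Tile.outs]
  · intro t ht; omega
  · simp only [comb]
    rw [comb_L (by omega) (by omega) (by omega)]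
    unfold combL
    rw [if_pos (by omega), if_neg (by omega)]
  · simp only [comb]
    rw [comb_L (by omega) (by omega) (by omega)]
    unfold combL
    rw [if_neg (by omega), if_pos (by omega), if_pos (by omega)]
  · intro t ht
    simp only [comb]
    rw [comb_L (by omega) (by omega) (by omega)]
    unfold combL
    rw [if_neg (by omega), if_pos (by omega), if_neg (by omega), if_neg (by omega)]
  · simp only [comb]
    rcases Nat.lt_or_ge 2 k with h | h
    · rw [comb_L (by omega) (by omega) (by omega)]
      unfold combL
      rw [if_neg (by omega), if_pos (by omega), if_neg (by omega), if_pos (by omega)]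
    · obtain rfl : k = 2 := by omega
      rw [comb_L (by omega) (by omega) (by omega)]
      unfold combL
      rw [if_neg (by omega), if_pos (by omega), if_neg (by omega), if_pos (by omega)]
  · intro t ht ht'
    exact comb_out (by omega)

/-- left half, odd columns -/
lemma cw_Lo (m : ℕ) (hm : 3 ≤ m) (k : ℕ) (h1 : 3 ≤ k) (h2 : k ≤ 2 * m - 2) (hk : k % 2 = 1) :
    cw m hm k = Db false 2 (k - 2) ++ [(.l false, 2 + 2 * (k - 2))] := by
  unfold cw Mosaic.col
  rw [col_pattern _ (2 * m) 0 (k - 2) (.dn false) (.cup true) (.lc false) false (by omega)]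
  · simp [Tile.evs, Tile.outs]
  · intro t ht; omega
  · simp only [comb]
    rw [comb_L (by omega) (by omega) (by omega)]
    unfold combL
    rw [if_pos (by omega), if_neg (by omega)]
  · simp only [comb]
    rw [comb_L (by omega) (by omega) (by omega)]
    unfold combL
    rw [if_neg (by omega), if_neg (by omega), if_pos (by omega), if_neg (by omega)]
  · intro t ht
    simp only [comb]
    rw [comb_L (by omega) (by omega) (by omega)]
    unfold combL
    rw [if_neg (by omega), if_neg (by omega), if_neg (by omega), if_neg (by omega)]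
  · simp only [comb]
    rw [comb_L (by omega) (by omega) (by omega)]
    unfold combL
    rw [if_neg (by omega), if_neg (by omega), if_neg (by omega), if_pos (by omega)]
  · intro t ht ht'
    exact comb_out (by omega)

/-- the middle column -/
lemma cw_M (m : ℕ) (hm : 3 ≤ m) : cw m hm (2 * m - 1) = Db false 2 (2 * m - 3) := by
  unfold cw Mosaic.col
  have hd : ((2 * m - 1 : ℕ) : ℤ) - (((2 * m : ℕ) : ℤ) - 1) = 0 := by omega
  rw [hd]
  rw [col_pattern _ (2 * m) 0 (2 * m - 3) (.cup false) (.cup true) .blank false (by omega)]
  · simp [Tile.evs, Tile.outs]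
  · intro t ht; omega
  · simp only [comb, sub_zero]
    rw [comb_M (by omega) (by omega)]
    unfold combM
    rw [if_pos (by omega)]
  · simp only [comb, sub_zero]
    rw [comb_M (by omega) (by omega)]
    unfold combM
    rw [if_neg (by omega), if_pos (by omega)]
  · intro t ht
    simp only [comb, sub_zero]
    rw [comb_M (by omega) (by omega)]
    unfold combM
    rw [if_neg (by omega), if_neg (by omega), if_neg (by omega)]
  · simp only [comb, sub_zero]
    rw [comb_M (by omega) (by omega)]
    unfold combM
    rw [if_neg (by omega), if_neg (by omega), if_pos (by omega)]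
  · intro t ht ht'
    omega

/-- right half, even columns -/
lemma cw_Re (m : ℕ) (hm : 3 ≤ m) (k : ℕ) (h1 : 2 * m ≤ k) (h2 : k ≤ 4 * m - 4) (hk : k % 2 = 0) :
    cw m hm k = [(.r true, 1)] ++ Db true 1 (4 * m - 4 - k) := by
  unfold cw Mosaic.col
  rw [col_pattern _ (2 * m) (k - (2 * m - 1)) (4 * m - 4 - k) (.up false) (.rc true) (.cap true)
    true (by omega)]
  · simp [Tile.evs, Tile.outs]
  · intro t ht
    exact comb_out (by omega)
  · simp only [comb]
    rw [comb_R (by omega) (by omega) (by omega)]
    unfold combR
    rw [if_pos (by omega), if_neg (by omega)]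
  · simp only [comb]
    rw [comb_R (by omega) (by omega) (by omega)]
    unfold combR
    rw [if_neg (by omega), if_pos (by omega), if_pos (by omega)]
  · intro t ht
    simp only [comb]
    rw [comb_R (by omega) (by omega) (by omega)]
    unfold combR
    rw [if_neg (by omega), if_pos (by omega), if_neg (by omega), if_neg (by omega)]
  · simp only [comb]
    rw [comb_R (by omega) (by omega) (by omega)]
    unfold combR
    rw [if_neg (by omega), if_pos (by omega), if_neg (by omega), if_pos (by omega)]
  · intro t ht ht'
    omega

/-- right half, odd columns -/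
lemma cw_Ro (m : ℕ) (hm : 3 ≤ m) (k : ℕ) (h1 : 2 * m ≤ k) (h2 : k ≤ 4 * m - 5) (hk : k % 2 = 1) :
    cw m hm k = Db false 2 (4 * m - 4 - k) ++ [(.r false, 2 + 2 * (4 * m - 4 - k))] := by
  unfold cw Mosaic.col
  rw [col_pattern _ (2 * m) (k - (2 * m - 1)) (4 * m - 4 - k) (.up false) (.cup true) (.rc false)
    false (by omega)]
  · simp [Tile.evs, Tile.outs]
  · intro t ht
    exact comb_out (by omega)
  · simp only [comb]
    rw [comb_R (by omega) (by omega) (by omega)]
    unfold combR
    rw [if_pos (by omega), if_neg (by omega)]
  · simp only [comb]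
    rw [comb_R (by omega) (by omega) (by omega)]
    unfold combR
    rw [if_neg (by omega), if_neg (by omega), if_pos (by omega), if_neg (by omega)]
  · intro t ht
    simp only [comb]
    rw [comb_R (by omega) (by omega) (by omega)]
    unfold combR
    rw [if_neg (by omega), if_neg (by omega), if_neg (by omega), if_neg (by omega)]
  · simp only [comb]
    rw [comb_R (by omega) (by omega) (by omega)]
    unfold combR
    rw [if_neg (by omega), if_neg (by omega), if_neg (by omega), if_pos (by omega)]
  · intro t ht ht'
    omega

/-- all columns up to planar isotopy -/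
lemma cw_pl (m : ℕ) (hm : 3 ≤ m) (k : ℕ) (h1 : 1 ≤ k) (h2 : k ≤ 4 * m - 3) :
    Pl (cw m hm k) (Rk (k % 2 == 0) (hh m (k - 1)) ++ Lk (k % 2 == 0) (hh m k)) := by
  rcases Nat.mod_two_eq_zero_or_one k with hk | hk
  · have hb : (k % 2 == 0) = true := by simp [hk]
    rw [hb]
    simp only [Rk, Lk, if_true]
    by_cases h : k ≤ 2 * m - 2
    · rw [cw_Le m hm k (by omega) h hk]
      have e1 : hh m (k - 1) = k - 2 := by unfold hh; omega
      have e2 : hh m k = k - 2 + 1 := by unfold hh; omega
      rw [e1, e2]
      exact l_Db true 1 (k - 2)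
    · rw [cw_Re m hm k (by omega) (by omega) hk]
      have e1 : hh m (k - 1) = 4 * m - 4 - k + 1 := by unfold hh; omega
      have e2 : hh m k = 4 * m - 4 - k := by unfold hh; omega
      rw [e1, e2]
      exact r_Db true 1 _
  · have hb : (k % 2 == 0) = false := by simp [hk]
    rw [hb]
    simp only [Rk, Lk, Bool.false_eq_true, if_false]
    by_cases h : k = 1
    · subst h
      rw [cw_one]
      have e1 : hh m (1 - 1) = 0 := by unfold hh; omega
      have e2 : hh m 1 = 0 := by unfold hh; omega
      rw [e1, e2]
      exact Pl.refl _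
    by_cases h : k = 4 * m - 3
    · subst h
      rw [cw_last_one]
      have e1 : hh m (4 * m - 3 - 1) = 0 := by unfold hh; omega
      have e2 : hh m (4 * m - 3) = 0 := by unfold hh; omega
      rw [e1, e2]
      exact Pl.refl _
    by_cases h : k = 2 * m - 1
    · subst h
      rw [cw_M]
      have e1 : hh m (2 * m - 1 - 1) = 2 * m - 3 := by unfold hh; omega
      have e2 : hh m (2 * m - 1) = 2 * m - 3 := by unfold hh; omega
      rw [e1, e2]
      exact Db_eq false 2 _
    by_cases h : k ≤ 2 * m - 2
    · rw [cw_Lo m hm k (by omega) h hk]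
      have e1 : hh m (k - 1) = k - 2 := by unfold hh; omega
      have e2 : hh m k = k - 2 + 1 := by unfold hh; omega
      rw [e1, e2]
      exact Db_l false 2 (k - 2)
    · rw [cw_Ro m hm k (by omega) (by omega) hk]
      have e1 : hh m (k - 1) = 4 * m - 4 - k + 1 := by unfold hh; omega
      have e2 : hh m k = 4 * m - 4 - k := by unfold hh; omega
      rw [e1, e2]
      exact Db_r false 2 _

/-- the letters of the comb mosaic -/
def combLetters (m K : ℕ) : List Bool :=
  (List.range K).flatMap (fun j => List.replicate (hh m j) (j % 2 == 0))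

lemma comb_prefix (m : ℕ) (hm : 3 ≤ m) (K : ℕ) (hK : K ≤ 4 * m - 3) :
    Pl ((List.range K).flatMap (fun j => cw m hm (j + 1)))
      (letters (combLetters m K) ++ Lk (K % 2 == 0) (hh m K)) := by
  induction K with
  | zero =>
    have e : hh m 0 = 0 := by unfold hh; omega
    rw [e]
    exact Pl.refl _
  | succ K ih =>
    have h1 := (ih (by omega)).append (cw_pl m hm (K + 1) (by omega) hK)
    have hb : ((K + 1) % 2 == 0) = !(K % 2 == 0) := by
      rcases Nat.mod_two_eq_zero_or_one K with h | h
      · have : (K + 1) % 2 = 1 := by omega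
        simp [h, this]
      · have : (K + 1) % 2 = 0 := by omega
        simp [h, this]
    have h2 := (strand (K % 2 == 0) (hh m K)).ctx (letters (combLetters m K))
      (Lk ((K + 1) % 2 == 0) (hh m (K + 1)))
    rw [List.range_succ, List.flatMap_append]
    have e : combLetters m (K + 1) = combLetters m K ++ List.replicate (hh m K) (K % 2 == 0) := by
      unfold combLetters
      rw [List.range_succ, List.flatMap_append]
      simp
    rw [e, letters_append]
    rw [hb] at h1 h2 ⊢
    simp only [List.flatMap_cons, List.flatMap_nil, List.append_nil, List.append_assoc,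
      Nat.add_sub_cancel] at h1 h2 ⊢
    exact h1.trans h2

/-- the standard word with letters `L` -/
def W (L : List Bool) : List Ev := [(.l false, 0)] ++ letters L ++ [(.r false, 0)]

theorem comb_word_pl (m : ℕ) (hm : 3 ≤ m) :
    Pl (comb m hm).word (W (combLetters m (4 * m - 3))) := by
  have h1 := comb_prefix m hm (4 * m - 3) le_rfl
  have e : hh m (4 * m - 3) = 0 := by unfold hh; omega
  rw [e] at h1
  have e2 : (comb m hm).word = [(Kind.l false, 0)] ++
      (List.range (4 * m - 3)).flatMap (fun j => cw m hm (j + 1)) ++ [(Kind.r false, 0)] := by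
    rw [comb_word, show 2 * (2 * m) - 1 = (4 * m - 3 + 1) + 1 by omega, List.range_succ,
      List.flatMap_append, List.range_succ_eq_map, List.flatMap_cons, List.flatMap_map, cw_zero]
    rw [show 4 * m - 3 + 1 = 4 * m - 2 by omega]
    simp only [List.flatMap_cons, List.flatMap_nil, List.append_nil, cw_last]
  rw [e2]
  have h2 := h1.ctx [(Kind.l false, 0)] [(Kind.r false, 0)]
  simpa [W, Lk] using h2

end Pool.Agent.Helper88.Leg
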