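import Mathlib

/-!
# Legendrian knots via fronts, and Legendrian mosaics

Oriented Legendrian links in the standard contact `ℝ³` are encoded by their generic fronts: a
front is read from left to right as a word of elementary pieces (left cusps, right cusps,
crossings), each acting on the strands at a given height.  By the theorem of Świątkowski, two
fronts represent Legendrian isotopic links iff they are related by planar isotopies of fronts
(which only exchange consecutive pieces acting on disjoint strands) and the Legendrian
Reidemeister moves.
-/

namespace Pool.Agent.Helper88.Leg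

/-- The elementary pieces of an oriented front.  A strand is oriented rightwards (`true`) or
leftwards (`false`). -/
inductive Kind
  /-- left cusp `<`; the lower of the two new strands has orientation `b`, the upper one `!b` -/
  | l (b : Bool)
  /-- right cusp `>`; the lower strand has orientation `b`, the upper one `!b` -/
  | r (b : Bool)
  /-- crossing; on the left of the crossing the lower strand has orientation `b`, the upper one
  orientation `c`. The strand of negative slope is the overstrand (automatic for fronts). -/
  | x (b c : Bool)

/-- orientations (from bottom to top) of the strands on the left of the piece -/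
def Kind.src : Kind → List Bool
  | .l _ => []
  | .r b => [b, !b]
  | .x b c => [b, c]

/-- orientations (from bottom to top) of the strands on the right of the piece -/
def Kind.tgt : Kind → List Bool
  | .l b => [b, !b]
  | .r _ => []
  | .x b c => [c, b]

/-- A piece together with its height: the number of strands passing below it. -/
abbrev Ev := Kind × ℕ

/-- passing a piece: the list of orientations of all strands (from bottom to top) changes from
`s` to `s'` -/
def Step (s : List Bool) (e : Ev) (s' : List Bool) : Prop :=
  ∃ u v : List Bool, u.length = e.2 ∧ s = u ++ e.1.src ++ v ∧ s' = u ++ e.1.tgt ++ v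

/-- passing a word of pieces -/
inductive Run : List Bool → List Ev → List Bool → Prop
  | nil (s : List Bool) : Run s [] s
  | cons {s s' s'' : List Bool} {e : Ev} {w : List Ev} :
      Step s e s' → Run s' w s'' → Run s (e :: w) s''

/-- An oriented (closed) front: a word starting and ending without strands. -/
def Front : Type := {w : List Ev // Run [] w []}

/-- Consistent labellings of the strands of a word by two labels: both strands at a cusp carry the
same label, and labels are transported through crossings. `Lab s w s' t`: labels `s` of the strands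
on the left, `s'` on the right, `t` the list of the labels of all left cusps. -/
inductive Lab : List Bool → List Ev → List Bool → List Bool → Prop
  | nil (s : List Bool) : Lab s [] s []
  | l (u v : List Bool) (a b : Bool) {w : List Ev} {s' t : List Bool} :
      Lab (u ++ [a, a] ++ v) w s' t → Lab (u ++ v) ((.l b, u.length) :: w) s' (a :: t)
  | r (u v : List Bool) (a b : Bool) {w : List Ev} {s' t : List Bool} :
      Lab (u ++ v) w s' t → Lab (u ++ [a, a] ++ v) ((.r b, u.length) :: w) s' t
  | x (u v : List Bool) (a a' b c : Bool) {w : List Ev} {s' t : List Bool} :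
      Lab (u ++ [a', a] ++ v) w s' t → Lab (u ++ [a, a'] ++ v) ((.x b c, u.length) :: w) s' t

/-- A front is a knot front if it is nonempty and has one component, i.e. its only consistent
labellings by two labels are the constant ones. -/
def Front.IsKnot (f : Front) : Prop :=
  f.1 ≠ [] ∧ ∀ t : List Bool, Lab [] f.1 [] t → ∀ a ∈ t, ∀ b ∈ t, a = b

/-! ### Legendrian isotopy -/

/-- Elementary moves of fronts: exchange of two consecutive pieces acting on disjoint strands
(`far`, planar isotopy), and the Legendrian Reidemeister moves I, II, III with all their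
reflections. -/
inductive Move : List Ev → List Ev → Prop
  | far (k₁ k₂ : Kind) (i m : ℕ) :
      Move [(k₁, i), (k₂, i + k₁.tgt.length + m)] [(k₂, i + k₁.src.length + m), (k₁, i)]
  | r1a (o : Bool) (i : ℕ) : Move [] [(.l o, i + 1), (.x o o, i), (.r o, i + 1)]
  | r1b (o : Bool) (i : ℕ) : Move [] [(.l (!o), i), (.x o o, i + 1), (.r (!o), i)]
  | r2a (b c : Bool) (i : ℕ) :
      Move [(.l b, i), (.x (!b) c, i + 1), (.x b c, i)] [(.l b, i + 1)]
  | r2b (b c : Bool) (i : ℕ) :
      Move [(.l b, i + 1), (.x c b, i), (.x c (!b), i + 1)] [(.l b, i)]
  | r2c (b c : Bool) (i : ℕ) :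
      Move [(.x c b, i), (.x c (!b), i + 1), (.r b, i)] [(.r b, i + 1)]
  | r2d (b c : Bool) (i : ℕ) :
      Move [(.x (!b) c, i + 1), (.x b c, i), (.r b, i + 1)] [(.r b, i)]
  | r3 (a b c : Bool) (i : ℕ) :
      Move [(.x a b, i), (.x a c, i + 1), (.x b c, i)]
        [(.x b c, i + 1), (.x a c, i), (.x a b, i + 1)]

/-- one elementary move inside a front -/
def Iso (f g : Front) : Prop :=
  ∃ u v a b : List Ev, Move a b ∧ f.1 = u ++ a ++ v ∧ g.1 = u ++ b ++ v

/-- Legendrian links: fronts modulo the equivalence relation generated by the moves. -/
def LegLink : Type := Quot Iso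

/-- the Legendrian link of a front -/
def LegLink.mk (f : Front) : LegLink := Quot.mk _ f

/-- Legendrian knots -/
def LegLink.IsKnot (Λ : LegLink) : Prop := ∃ f : Front, f.IsKnot ∧ LegLink.mk f = Λ

/-! ### Stabilisations -/

/-- A zigzag on a strand of orientation `o` with `i` strands below it. For `o = true` the first
form has two downward cusps (positive stabilisation) and the second one two upward cusps
(negative stabilisation); for `o = false` it is the other way round. -/
inductive Zigzag : List Ev → Prop
  | z (o : Bool) (i : ℕ) : Zigzag [(.l o, i), (.r (!o), i + 1)]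
  | s (o : Bool) (i : ℕ) : Zigzag [(.l (!o), i + 1), (.r o, i)]

/-- `Λ'` is a (positive or negative) stabilisation of `Λ` -/
def IsStabilization (Λ Λ' : LegLink) : Prop :=
  ∃ (f g : Front) (u v z : List Ev), Zigzag z ∧ f.1 = u ++ v ∧ g.1 = u ++ z ++ v ∧
    LegLink.mk f = Λ ∧ LegLink.mk g = Λ'

/-! ### Legendrian mosaics -/

/-- The oriented Legendrian mosaic tiles.  The tile is a unit square whose sides are, after the
rotation by 45 degrees counterclockwise, the sides NW (top), NE (right), SE (bottom), SW (left).
An arc at the left (W) or right (E) corner of the rotated tile is a cusp, an arc at the top (N) or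
bottom (S) corner is smooth. -/
inductive Tile
  | blank
  /-- right cusp: arc at the W corner joining SW (orientation `b`) and NW (`!b`) -/
  | rc (b : Bool)
  /-- left cusp: arc at the E corner joining SE (orientation `b`) and NE (`!b`) -/
  | lc (b : Bool)
  /-- arc at the S corner joining SW and SE -/
  | cap (b : Bool)
  /-- arc at the N corner joining NW and NE -/
  | cup (b : Bool)
  /-- segment of slope 1 joining SW and NE -/
  | up (b : Bool)
  /-- segment of slope -1 joining NW and SE -/
  | dn (b : Bool)
  /-- two cusps: right cusp of type `b` at the W corner, left cusp of type `c` at the E corner -/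
  | cc (b c : Bool)
  /-- arc at the S corner (orientation `b`) and arc at the N corner (orientation `c`) -/
  | ss (b c : Bool)
  /-- crossing of the segment of slope 1 (orientation `b`) and of slope -1 (orientation `c`) -/
  | xx (b c : Bool)

namespace Tile

/-- orientation of the strand crossing the side NW (`none` if there is none) -/
def nw : Tile → Option Bool
  | rc b => some !b
  | cup b => some b
  | dn b => some b
  | cc b _ => some !b
  | ss _ c => some c
  | xx _ c => some c
  | _ => none

/-- orientation of the strand crossing the side SW -/
def sw : Tile → Option Bool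
  | rc b => some b
  | cap b => some b
  | up b => some b
  | cc b _ => some b
  | ss b _ => some b
  | xx b _ => some b
  | _ => none

/-- orientation of the strand crossing the side NE -/
def ne : Tile → Option Bool
  | lc b => some !b
  | cup b => some b
  | up b => some b
  | cc _ c => some !c
  | ss _ c => some c
  | xx b _ => some b
  | _ => none

/-- orientation of the strand crossing the side SE -/
def se : Tile → Option Bool
  | lc b => some b
  | cap b => some b
  | dn b => some b
  | cc _ c => some c
  | ss b _ => some b
  | xx _ c => some c
  | _ => none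

/-- number of strands leaving the tile to the right (through SE and NE) -/
def outs : Tile → ℕ
  | blank => 0
  | rc _ => 0
  | lc _ => 2
  | cap _ => 1
  | cup _ => 1
  | up _ => 1
  | dn _ => 1
  | cc _ _ => 2
  | ss _ _ => 2
  | xx _ _ => 2

/-- the pieces of the front in the tile, `o` being the number of strands below the tile -/
def evs (o : ℕ) : Tile → List Ev
  | rc b => [(.r b, o)]
  | lc b => [(.l b, o)]
  | cc b c => [(.r b, o), (.l c, o)]
  | xx b c => [(.x b c, o)]
  | _ => []

end Tile

/-- An oriented, suitably connected Legendrian `n`-mosaic: the tile in column `c` and row `r`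
(rows counted from the bottom), `0 ≤ c, r < n`; outside of the array everything is blank. -/
structure Mosaic (n : ℕ) where
  /-- the tiles -/
  tile : ℤ → ℤ → Tile
  blank : ∀ c r : ℤ, ¬ (0 ≤ c ∧ c < n ∧ 0 ≤ r ∧ r < n) → tile c r = Tile.blank
  /-- the right side of a tile is the left side of its right neighbour -/
  hor : ∀ c r : ℤ, (tile c r).ne = (tile (c + 1) r).sw
  /-- the top side of a tile is the bottom side of its upper neighbour -/
  ver : ∀ c r : ℤ, (tile c r).nw = (tile c (r + 1)).se

/-- the pieces of the front in a column of the rotated mosaic (tiles listed from bottom to top),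
`o` being the number of strands below -/
def colWord : ℕ → List Tile → List Ev
  | _, [] => []
  | o, T :: ts => T.evs o ++ colWord (o + T.outs) ts

/-- After the rotation by 45 degrees the tiles `(c, r)` with `c - r = d` form a vertical column,
ordered from bottom to top by `c`. -/
def Mosaic.col {n : ℕ} (M : Mosaic n) (d : ℤ) : List Tile :=
  (List.range n).map (fun t : ℕ => M.tile t ((t : ℤ) - d))

/-- the front word of a mosaic, the columns being read from left to right -/
def Mosaic.word {n : ℕ} (M : Mosaic n) : List Ev :=
  (List.range (2 * n - 1)).flatMap (fun k : ℕ => colWord 0 (M.col ((k : ℤ) - ((n : ℤ) - 1))))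

/-! The word of a mosaic is the word of a front. -/

/-- orientations of the strands entering a tile from the left, from bottom to top -/
def Tile.ins (T : Tile) : List Bool := T.sw.toList ++ T.nw.toList

/-- orientations of the strands leaving a tile to the right, from bottom to top -/
def Tile.exs (T : Tile) : List Bool := T.se.toList ++ T.ne.toList

lemma Tile.length_exs (T : Tile) : T.exs.length = T.outs := by
  cases T <;> rfl

lemma Run.append {s s' s'' : List Bool} {w w' : List Ev} (h : Run s w s') (h' : Run s' w' s'') :
    Run s (w ++ w') s'' := by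
  induction h with
  | nil s => simpa using h'
  | cons hs _ ih => exact Run.cons hs (ih h')

lemma Tile.run (T : Tile) (u v : List Bool) :
    Run (u ++ T.ins ++ v) (T.evs u.length) (u ++ T.exs ++ v) := by
  cases T with
  | rc b =>
    refine Run.cons (s' := u ++ v) ⟨u, v, rfl, ?_, ?_⟩ ?_
    · simp [Tile.ins, Tile.sw, Tile.nw, Kind.src]
    · simp [Kind.tgt]
    · simpa [Tile.exs, Tile.se, Tile.ne] using Run.nil _
  | lc b =>
    refine Run.cons (s' := u ++ [b, !b] ++ v) ⟨u, v, rfl, ?_, ?_⟩ ?_
    · simp [Tile.ins, Tile.sw, Tile.nw, Kind.src]
    · simp [Kind.tgt]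
    · simpa [Tile.exs, Tile.se, Tile.ne] using Run.nil _
  | cc b c =>
    refine Run.cons (s' := u ++ v) ⟨u, v, rfl, ?_, ?_⟩
      (Run.cons (s' := u ++ [c, !c] ++ v) ⟨u, v, rfl, ?_, ?_⟩ ?_)
    · simp [Tile.ins, Tile.sw, Tile.nw, Kind.src]
    · simp [Kind.tgt]
    · simp [Kind.src]
    · simp [Kind.tgt]
    · simpa [Tile.exs, Tile.se, Tile.ne] using Run.nil _
  | xx b c =>
    refine Run.cons (s' := u ++ [c, b] ++ v) ⟨u, v, rfl, ?_, ?_⟩ ?_
    · simp [Tile.ins, Tile.sw, Tile.nw, Kind.src]
    · simp [Kind.tgt]
    · simpa [Tile.exs, Tile.se, Tile.ne] using Run.nil _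
  | blank => exact Run.nil _
  | cap b => exact Run.nil _
  | cup b => exact Run.nil _
  | up b => exact Run.nil _
  | dn b => exact Run.nil _
  | ss b c => exact Run.nil _

lemma colWord_run (ts : List Tile) : ∀ u : List Bool,
    Run (u ++ ts.flatMap Tile.ins) (colWord u.length ts) (u ++ ts.flatMap Tile.exs) := by
  induction ts with
  | nil => intro u; exact Run.nil _
  | cons T ts ih =>
    intro u
    have h1 := T.run u (ts.flatMap Tile.ins)
    have h2 := ih (u ++ T.exs)
    rw [List.length_append, T.length_exs] at h2
    simp only [List.flatMap_cons, List.append_assoc, colWord] at h1 h2 ⊢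
    exact h1.append h2

namespace Mosaic

variable {n : ℕ} (M : Mosaic n)

lemma shift_aux (a b : ℕ → List Bool) (N : ℕ) :
    a 0 ++ (List.range N).flatMap (fun t => b t ++ a (t + 1)) =
      (List.range N).flatMap (fun t => a t ++ b t) ++ a N := by
  induction N with
  | zero => simp
  | succ N ih =>
    rw [List.range_succ, List.flatMap_append, List.flatMap_append, ← List.append_assoc, ih]
    simp

lemma exs_col (d : ℤ) : (M.col d).flatMap Tile.exs = (M.col (d + 1)).flatMap Tile.ins := by
  have h := shift_aux (fun t : ℕ => (M.tile t ((t : ℤ) - (d + 1))).sw.toList)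
    (fun t : ℕ => (M.tile t ((t : ℤ) - (d + 1))).nw.toList) n
  have h0 : (M.tile ((0 : ℕ) : ℤ) (((0 : ℕ) : ℤ) - (d + 1))).sw = none := by
    have := M.hor (-1) (((0 : ℕ) : ℤ) - (d + 1))
    rw [M.blank (-1) _ (by omega)] at this
    norm_num at this ⊢
    rw [← this]; rfl
  have hn : (M.tile ((n : ℕ) : ℤ) (((n : ℕ) : ℤ) - (d + 1))).sw = none := by
    rw [M.blank n _ (by omega)]; rfl
  simp only [h0, hn, Option.toList_none, List.nil_append, List.append_nil] at h
  unfold col
  rw [List.flatMap_map, List.flatMap_map]
  refine Eq.trans ?_ h
  congr 1
  funext t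
  unfold Tile.exs
  congr 1
  · rw [M.ver t ((t : ℤ) - (d + 1))]
    congr 3
    ring
  · rw [M.hor t ((t : ℤ) - d)]
    congr 2
    push_cast
    ring_nf

lemma run_prefix (N : ℕ) : Run []
    ((List.range N).flatMap (fun k : ℕ => colWord 0 (M.col ((k : ℤ) - ((n : ℤ) - 1)))))
    ((M.col ((N : ℤ) - ((n : ℤ) - 1))).flatMap Tile.ins) := by
  induction N with
  | zero =>
    have h : (M.col (((0 : ℕ) : ℤ) - ((n : ℤ) - 1))).flatMap Tile.ins = [] := by
      have h1 := M.exs_col (((0 : ℕ) : ℤ) - ((n : ℤ) - 1) - 1)
      rw [sub_add_cancel] at h1
      rw [← h1]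
      unfold col
      rw [List.flatMap_map, List.flatMap_eq_nil_iff]
      intro t ht
      rw [M.blank t _ (by omega)]
      rfl
    rw [h]
    exact Run.nil _
  | succ N ih =>
    rw [List.range_succ, List.flatMap_append]
    have h1 := colWord_run (M.col ((N : ℤ) - ((n : ℤ) - 1))) []
    simp only [List.nil_append, List.length_nil] at h1
    have e : ((N + 1 : ℕ) : ℤ) - ((n : ℤ) - 1) = (N : ℤ) - ((n : ℤ) - 1) + 1 := by
      push_cast; ring
    rw [e, ← M.exs_col]
    simpa using ih.append h1

/-- the word of a mosaic is the word of a front -/
theorem run_word : Run [] M.word [] := by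
  rcases Nat.eq_zero_or_pos n with rfl | hn
  · exact Run.nil _
  have h := M.run_prefix (2 * n - 1)
  have e : (M.col (((2 * n - 1 : ℕ) : ℤ) - ((n : ℤ) - 1))).flatMap Tile.ins = [] := by
    unfold col
    rw [List.flatMap_map, List.flatMap_eq_nil_iff]
    intro t ht
    have ht' := List.mem_range.1 ht
    rw [M.blank t _ (by omega)]
    rfl
  rw [e] at h
  exact h

/-- the Legendrian link depicted by a mosaic -/
def link : LegLink := LegLink.mk ⟨M.word, M.run_word⟩

end Mosaic

/-- `n` is the Legendrian mosaic number of `Λ`: the least `n` such that some Legendrian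
`n`-mosaic depicts `Λ` -/
def HasMosaicNumber (Λ : LegLink) (n : ℕ) : Prop :=
  IsLeast {k : ℕ | ∃ M : Mosaic k, M.link = Λ} n

end Pool.Agent.Helper88.Leg
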