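import Pool.Agent.Helper88.Leg.Gadget

/-!
# Stabilisations that lower the mosaic number
-/

namespace Pool.Agent.Helper88.Leg

/-! ### The words `W L` are fronts of knots -/

lemma step_letter (b : Bool) : Run [false, true] (letter b) [false, true] := by
  cases b
  · refine Run.cons (s' := [false, true, false, true]) ⟨[false, true], [], rfl, rfl, rfl⟩ ?_
    exact Run.cons ⟨[false], [true], rfl, rfl, rfl⟩ (Run.nil _)
  · refine Run.cons (s' := [false, true, false, true]) ⟨[false], [true], rfl, rfl, rfl⟩ ?_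
    exact Run.cons ⟨[false, true], [], rfl, rfl, rfl⟩ (Run.nil _)

lemma run_letters (L : List Bool) : Run [false, true] (letters L) [false, true] := by
  induction L with
  | nil => exact Run.nil _
  | cons b L ih => rw [letters_cons]; exact (step_letter b).append ih

lemma W_run (L : List Bool) : Run [] (W L) [] := by
  have h1 : Run [] [(Kind.l false, 0)] [false, true] :=
    Run.cons ⟨[], [], rfl, rfl, rfl⟩ (Run.nil _)
  have h2 : Run [false, true] [(Kind.r false, 0)] [] :=
    Run.cons ⟨[], [], rfl, rfl, rfl⟩ (Run.nil _)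
  exact (h1.append (run_letters L)).append h2

/-- the front with letters `L` -/
def Wf (L : List Bool) : Front := ⟨W L, W_run L⟩

lemma lab_l {s s' t : List Bool} {b : Bool} {o : ℕ} {w : List Ev}
    (h : Lab s ((.l b, o) :: w) s' t) :
    ∃ (u v : List Bool) (a : Bool) (t' : List Bool), s = u ++ v ∧ u.length = o ∧ t = a :: t' ∧
      Lab (u ++ [a, a] ++ v) w s' t' := by
  generalize hx : ((Kind.l b, o) :: w) = x at h
  cases h with
  | nil => simp at hx
  | l u v a b' h' =>
    simp only [List.cons.injEq, Prod.mk.injEq, Kind.l.injEq] at hx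
    obtain ⟨⟨rfl, rfl⟩, rfl⟩ := hx
    exact ⟨u, v, a, _, rfl, rfl, rfl, h'⟩
  | r u v a b' h' => simp at hx
  | x u v a a' b' c h' => simp at hx

lemma lab_r {s s' t : List Bool} {b : Bool} {o : ℕ} {w : List Ev}
    (h : Lab s ((.r b, o) :: w) s' t) :
    ∃ (u v : List Bool) (a : Bool), s = u ++ [a, a] ++ v ∧ u.length = o ∧
      Lab (u ++ v) w s' t := by
  generalize hx : ((Kind.r b, o) :: w) = x at h
  cases h with
  | nil => simp at hx
  | l u v a b' h' => simp at hx
  | r u v a b' h' =>
    simp only [List.cons.injEq, Prod.mk.injEq, Kind.r.injEq] at hx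
    obtain ⟨⟨rfl, rfl⟩, rfl⟩ := hx
    exact ⟨u, v, a, rfl, rfl, h'⟩
  | x u v a a' b' c h' => simp at hx

lemma lab_nil {s s' t : List Bool} (h : Lab s [] s' t) : t = [] := by
  cases h
  rfl

lemma lab_letter (b x : Bool) (w : List Ev) (s' t : List Bool)
    (h : Lab [x, x] (letter b ++ w) s' t) : ∃ t', t = x :: t' ∧ Lab [x, x] w s' t' := by
  cases b
  · simp only [letter, List.cons_append, List.nil_append] at h
    obtain ⟨u, v, a, t', h1, h2, rfl, h3⟩ := lab_l h
    obtain ⟨u', v', a', h4, h5, h6⟩ := lab_r h3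
    obtain ⟨c, d, rfl⟩ : ∃ c d, u = [c, d] := List.length_eq_two.1 h2
    obtain ⟨e, rfl⟩ : ∃ e, u' = [e] := List.length_eq_one_iff.1 h5
    simp only [List.cons_append, List.nil_append, List.cons.injEq] at h1 h4
    obtain ⟨rfl, rfl, rfl⟩ := h1
    obtain ⟨rfl, rfl, h7, h8⟩ := h4
    subst h7
    subst h8
    exact ⟨t', rfl, h6⟩
  · simp only [letter, List.cons_append, List.nil_append] at h
    obtain ⟨u, v, a, t', h1, h2, rfl, h3⟩ := lab_l h
    obtain ⟨u', v', a', h4, h5, h6⟩ := lab_r h3
    obtain ⟨c, d, rfl⟩ : ∃ c d, u' = [c, d] := List.length_eq_two.1 h5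
    obtain ⟨e, rfl⟩ : ∃ e, u = [e] := List.length_eq_one_iff.1 h2
    simp only [List.cons_append, List.nil_append, List.cons.injEq] at h1 h4
    obtain ⟨rfl, rfl⟩ := h1
    simp only [List.cons.injEq] at h4
    obtain ⟨rfl, rfl, rfl, h7, h8⟩ := h4
    subst h7
    subst h8
    exact ⟨t', rfl, h6⟩

lemma lab_letters (x : Bool) (w : List Ev) (s' : List Bool) (L : List Bool) :
    ∀ t : List Bool, Lab [x, x] (letters L ++ w) s' t →
      ∃ t', t = List.replicate L.length x ++ t' ∧ Lab [x, x] w s' t' := by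
  induction L with
  | nil => intro t h; exact ⟨t, rfl, h⟩
  | cons b L ih =>
    intro t h
    rw [letters_cons, List.append_assoc] at h
    obtain ⟨t', rfl, h2⟩ := lab_letter b x _ _ _ h
    obtain ⟨t'', rfl, h3⟩ := ih t' h2
    exact ⟨t'', by simp [List.replicate_succ], h3⟩

lemma Wf_isKnot (L : List Bool) : (Wf L).IsKnot := by
  refine ⟨by simp [Wf, W], ?_⟩
  intro t ht
  have ht' : Lab [] ((.l false, 0) :: (letters L ++ [(.r false, 0)])) [] t := by
    simpa [Wf, W] using ht
  obtain ⟨u, v, x, t', h1, h2, rfl, h3⟩ := lab_l ht'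
  have hu : u = [] := List.length_eq_zero_iff.1 h2
  subst hu
  have hv : v = [] := by simpa using h1.symm
  subst hv
  obtain ⟨t'', rfl, h4⟩ := lab_letters x _ _ L t' h3
  obtain ⟨u', v', a, h5, h6, h7⟩ := lab_r h4
  have ht'' : t'' = [] := lab_nil h7
  subst ht''
  have key : ∀ a ∈ x :: (List.replicate L.length x ++ []), a = x := by
    intro a ha
    simp only [List.append_nil, List.mem_cons, List.mem_replicate] at ha
    tauto
  intro a ha b hb
  rw [key a ha, key b hb]

/-! ### Invariants of `W L` -/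

lemma letters_ph (L : List Bool) :
    wsum phW (letters L) = 6 * (L.count true : ℤ) - 10 * (L.count false : ℤ) := by
  induction L with
  | nil => simp
  | cons b L ih =>
    rw [letters_cons, wsum_append, ih]
    cases b
    · simp [letter, phW]; ring
    · simp [letter, phW]; ring

lemma W_ph (L : List Bool) :
    wsum phW (W L) = 6 * (L.count true : ℤ) - 10 * (L.count false : ℤ) - 2 := by
  simp [W, letters_ph, phW]; ring

lemma letters_tb (L : List Bool) : wsum tbW (letters L) = - 2 * (L.length : ℤ) := by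
  induction L with
  | nil => simp
  | cons b L ih =>
    rw [letters_cons, wsum_append, ih]
    cases b
    · simp [letter, tbW]; ring
    · simp [letter, tbW]; ring

lemma W_tb (L : List Bool) : wsum tbW (W L) = - 2 * (L.length : ℤ) - 2 := by
  simp [W, letters_tb, tbW]; ring

/-! ### Stabilisations -/

lemma stab (L₁ L₂ : List Bool) :
    IsStabilization (LegLink.mk (Wf (L₁ ++ L₂))) (LegLink.mk (Wf (L₁ ++ false :: L₂))) := by
  refine ⟨Wf (L₁ ++ L₂), Wf (L₁ ++ false :: L₂), [(.l false, 0)] ++ letters L₁,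
    letters L₂ ++ [(.r false, 0)], letter false, ?_, ?_, ?_, rfl, rfl⟩
  · exact Zigzag.s true 1
  · simp [Wf, W]
  · simp [Wf, W]

/-- `Λ` is depicted by a mosaic of size at most `n` -/
def Small (n : ℕ) (Λ : LegLink) : Prop := ∃ k ≤ n, ∃ M : Mosaic k, M.link = Λ

/-- a chain of destabilisations must cross the level `n` -/
lemma chain (n : ℕ) (L₂ : List Bool) : ∀ L₁ : List Bool,
    Small n (LegLink.mk (Wf (L₁ ++ L₂))) →
    ¬ Small n (LegLink.mk (Wf (L₁ ++ L₂.filter (· = true)))) →
    ∃ M₁ M₂ : List Bool, L₁.count true + L₂.count true ≤ (M₁ ++ M₂).length ∧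
      Small n (LegLink.mk (Wf (M₁ ++ false :: M₂))) ∧
      ¬ Small n (LegLink.mk (Wf (M₁ ++ M₂))) := by
  induction L₂ with
  | nil =>
    intro L₁ h1 h2
    exact absurd h1 h2
  | cons b L₂ ih =>
    intro L₁ h1 h2
    cases b
    · by_cases h : Small n (LegLink.mk (Wf (L₁ ++ L₂)))
      · have h2' : ¬ Small n (LegLink.mk (Wf (L₁ ++ L₂.filter (· = true)))) := by
          simpa using h2
        obtain ⟨M₁, M₂, h3, h4, h5⟩ := ih L₁ h h2'
        exact ⟨M₁, M₂, by simpa using h3, h4, h5⟩
      · refine ⟨L₁, L₂, ?_, h1, h⟩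
        have e1 : L₁.count true ≤ L₁.length := List.count_le_length
        have e2 : L₂.count true ≤ L₂.length := List.count_le_length
        simp
        omega
    · have h1' : Small n (LegLink.mk (Wf ((L₁ ++ [true]) ++ L₂))) := by
        simpa using h1
      have h2' : ¬ Small n (LegLink.mk (Wf ((L₁ ++ [true]) ++ L₂.filter (· = true)))) := by
        simpa using h2
      obtain ⟨M₁, M₂, h3, h4, h5⟩ := ih (L₁ ++ [true]) h1' h2'
      refine ⟨M₁, M₂, ?_, h4, h5⟩
      refine le_trans (le_of_eq ?_) h3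
      simp
      ring

/-- every knot `W L` has a mosaic number -/
lemma hasMosaicNumber (L : List Bool) : ∃ k, HasMosaicNumber (LegLink.mk (Wf L)) k := by
  have hne : {k : ℕ | ∃ M : Mosaic k, M.link = LegLink.mk (Wf L)}.Nonempty := by
    refine ⟨3 * L.length + 10, bigMosaic L, ?_⟩
    unfold Mosaic.link
    congr 1
    exact Subtype.ext (bigMosaic_word L)
  exact ⟨sInf _, Nat.sInf_mem hne, fun k hk => Nat.sInf_le hk⟩

lemma HasMosaicNumber.small {Λ : LegLink} {k n : ℕ} (h : HasMosaicNumber Λ k) :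
    Small n Λ ↔ k ≤ n := by
  constructor
  · rintro ⟨j, hj, M, hM⟩
    exact le_trans (h.2 ⟨M, hM⟩) hj
  · intro hk
    obtain ⟨M, hM⟩ := h.1
    exact ⟨k, hk, M, hM⟩

lemma not_small {n : ℕ} {Λ : LegLink} (h : 2 * (n : ℤ) ^ 2 < LegLink.inv phW phW_good Λ) :
    ¬ Small n Λ := by
  rintro ⟨k, hk, M, rfl⟩
  have h1 := link_le M
  have : (k : ℤ) ^ 2 ≤ (n : ℤ) ^ 2 := by
    have : (k : ℤ) ≤ n := by exact_mod_cast hk
    nlinarith
  linarith

/-! ### Counting -/

lemma comb_count_aux (m K : ℕ) :
    (combLetters m K).count true = ∑ j ∈ Finset.range K, if j % 2 = 0 then hh m j else 0 := by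
  induction K with
  | zero => rfl
  | succ K ih =>
    have e : combLetters m (K + 1) = combLetters m K ++ List.replicate (hh m K) (K % 2 == 0) := by
      unfold combLetters
      rw [List.range_succ, List.flatMap_append]
      simp
    rw [e, List.count_append, ih, Finset.sum_range_succ]
    congr 1
    rcases Nat.mod_two_eq_zero_or_one K with h | h
    · simp [h]
    · simp [h, List.count_replicate]

lemma sum_left (m : ℕ) :
    ∑ j ∈ Finset.range (2 * m + 1), (if j % 2 = 0 then j - 1 else 0) = m ^ 2 := by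
  induction m with
  | zero => simp
  | succ m ih =>
    rw [show 2 * (m + 1) + 1 = (2 * m + 1) + 1 + 1 by ring, Finset.sum_range_succ,
      Finset.sum_range_succ, ih, if_neg (by omega), if_pos (by omega)]
    have : 2 * m + 1 + 1 - 1 = 2 * m + 1 := by omega
    rw [this]
    ring

lemma sum_right (m : ℕ) :
    ∑ j ∈ Finset.range (2 * m), (if j % 2 = 1 then 2 * m - 1 - j else 0) = m * (m - 1) := by
  induction m with
  | zero => simp
  | succ m ih =>
    rw [show 2 * (m + 1) = 2 * m + 1 + 1 by ring, Finset.sum_range_succ', Finset.sum_range_succ']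
    have e : ∀ j ∈ Finset.range (2 * m),
        (if (j + 1 + 1) % 2 = 1 then 2 * m + 1 + 1 - 1 - (j + 1 + 1) else 0) =
          (if j % 2 = 1 then 2 * m - 1 - j else 0) := by
      intro j hj
      have := Finset.mem_range.1 hj
      split_ifs <;> omega
    rw [Finset.sum_congr rfl e, ih]
    simp only [Nat.zero_add, Nat.zero_mod, Nat.one_mod, if_true, zero_ne_one, if_false]
    rcases m with _ | m
    · simp
    · simp
      ring

lemma comb_count (p : ℕ) :
    (combLetters (p + 3) (4 * (p + 3) - 3)).count true = (p + 2) ^ 2 + (p + 2) * (p + 1) := by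
  rw [comb_count_aux, show 4 * (p + 3) - 3 = (2 * (p + 2) + 1) + 2 * (p + 2) by omega,
    Finset.sum_range_add]
  congr 1
  · rw [← sum_left (p + 2)]
    refine Finset.sum_congr rfl (fun j hj => ?_)
    have := Finset.mem_range.1 hj
    unfold hh
    split_ifs <;> omega
  · have := sum_right (p + 2)
    rw [show p + 2 - 1 = p + 1 by omega] at this
    rw [← this]
    refine Finset.sum_congr rfl (fun j hj => ?_)
    have := Finset.mem_range.1 hj
    unfold hh
    split_ifs <;> omega

/-! ### The main theorem -/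

/-- Legendrian knots having a stabilisation of smaller mosaic number -/
def Drop : Set LegLink :=
  {Λ | Λ.IsKnot ∧ ∃ Λ', IsStabilization Λ Λ' ∧
    ∃ k l : ℕ, HasMosaicNumber Λ' k ∧ HasMosaicNumber Λ l ∧ k < l}

lemma exists_drop (p : ℕ) : ∃ Λ ∈ Drop, LegLink.inv tbW tbW_good Λ ≤ - (p : ℤ) := by
  set m := p + 7 with hm
  have hm3 : 3 ≤ m := by omega
  set L := combLetters m (4 * m - 3) with hL
  have hmk : (comb m hm3).link = LegLink.mk (Wf L) :=
    (comb_word_pl m hm3).mk (comb m hm3).run_word (W_run L)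
  have h1 : Small (2 * m) (LegLink.mk (Wf L)) := ⟨2 * m, le_rfl, comb m hm3, hmk⟩
  have hc : L.count true = (p + 6) ^ 2 + (p + 6) * (p + 5) := by
    have := comb_count (p + 4)
    rw [hL, hm]
    exact this
  have h2 : ¬ Small (2 * m) (LegLink.mk (Wf (L.filter (· = true)))) := by
    apply not_small
    rw [LegLink.inv_mk]
    have e : (Wf (L.filter (· = true))).1 = W (L.filter (· = true)) := rfl
    rw [e, W_ph]
    have e1 : (L.filter (· = true)).count true = L.count true := by
      rw [List.count_filter]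
      simp
    have e2 : (L.filter (· = true)).count false = 0 := by
      rw [List.count_eq_zero]
      intro h
      rw [List.mem_filter] at h
      simp at h
    rw [e1, e2, hc, hm]
    push_cast
    nlinarith
  obtain ⟨M₁, M₂, h3, h4, h5⟩ := chain (2 * m) L [] (by simpa using h1) (by simpa using h2)
  obtain ⟨k, hk⟩ := hasMosaicNumber (M₁ ++ false :: M₂)
  obtain ⟨l, hl⟩ := hasMosaicNumber (M₁ ++ M₂)
  rw [hk.small] at h4
  rw [hl.small, not_le] at h5
  refine ⟨LegLink.mk (Wf (M₁ ++ M₂)), ⟨⟨_, Wf_isKnot _, rfl⟩, _, stab M₁ M₂, k, l, hk, hl,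
    lt_of_le_of_lt h4 h5⟩, ?_⟩
  rw [LegLink.inv_mk]
  have e : (Wf (M₁ ++ M₂)).1 = W (M₁ ++ M₂) := rfl
  rw [e, W_tb]
  have h6 : (p + 6) ^ 2 + (p + 6) * (p + 5) ≤ (M₁ ++ M₂).length := by
    rw [← hc]
    simpa using h3
  have h7 : p ≤ (M₁ ++ M₂).length := le_trans (by nlinarith) h6
  have h8 : (p : ℤ) ≤ ((M₁ ++ M₂).length : ℤ) := by exact_mod_cast h7
  linarith

/-- There are infinitely many Legendrian knots having a stabilisation whose mosaic number is
strictly smaller. -/
theorem drop_infinite : Drop.Infinite := by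
  apply Set.Infinite.of_image (fun Λ => - LegLink.inv tbW tbW_good Λ)
  apply Set.infinite_of_forall_exists_gt
  intro a
  obtain ⟨Λ, h1, h2⟩ := exists_drop (a.toNat + 1)
  refine ⟨_, ⟨Λ, h1, rfl⟩, ?_⟩
  have h3 : a ≤ (a.toNat : ℤ) := Int.self_le_toNat a
  push_cast at h2
  simp only
  linarith

end Pool.Agent.Helper88.Leg
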