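import Pool.Agent.Helper88.Leg.CombWord

/-!
# A mosaic for every word `W L`
-/

namespace Pool.Agent.Helper88.Leg

/-- the building blocks, six columns each -/
inductive Gad
  | start
  | a
  | b
  | fin
  | emp

namespace Gad

/-- is the lower and the upper strand present at the left end -/
def inn : Gad → Bool
  | start => false
  | a => true
  | b => true
  | fin => true
  | emp => false

/-- is the lower and the upper strand present at the right end -/
def out : Gad → Bool
  | start => true
  | a => true
  | b => true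
  | fin => false
  | emp => false

/-- the columns of the blocks, tiles listed from bottom to top -/
def tab : Gad → List (List Tile)
  | start => [[], [.lc false], [.cup false, .up true], [.cap false, .up true],
      [.cup false, .blank, .up true], [.cap false, .blank, .cap true]]
  | a => [[.cup false, .lc true, .dn true], [.ss false true, .rc false], [.cup false, .up true],
      [.cap false, .up true], [.cup false, .blank, .up true], [.cap false, .blank, .cap true]]
  | b => [[.cup false, .blank, .cup true, .lc false], [.cap false, .blank, .rc true, .cap true],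
      [.cup false, .blank, .blank, .dn true], [.cap false, .blank, .dn true],
      [.cup false, .blank, .cup true], [.cap false, .blank, .cap true]]
  | fin => [[.cup false, .blank, .dn true], [.cap false, .dn true], [.cup false, .dn true],
      [.rc false]]
  | emp => []

/-- the tile of the block in column `j` at height `z` -/
def tile (g : Gad) (j z : ℕ) : Tile :=
  if z % 2 = j % 2 then (g.tab.getD j []).getD (z / 2) .blank else .blank

lemma tab_length (g : Gad) (j : ℕ) : (g.tab.getD j []).length ≤ 4 := by
  by_cases hj : j < 6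
  · interval_cases j <;> cases g <;> decide
  · have h : g.tab.length ≤ 6 := by cases g <;> decide
    have : g.tab.getD j [] = [] := by
      rw [List.getD_eq_getElem?_getD, List.getElem?_eq_none (by omega)]
      rfl
    rw [this]
    simp

/-- tiles are blank above height 7 -/
lemma tile_high (g : Gad) (j z : ℕ) (hz : 8 ≤ z) : g.tile j z = .blank := by
  unfold tile
  split
  · have := g.tab_length j
    rw [List.getD_eq_getElem?_getD, List.getElem?_eq_none (by omega)]
    rfl
  · rfl

lemma hor_in (g : Gad) : ∀ j < 5, ∀ z < 8, (g.tile j z).ne = (g.tile (j + 1) (z + 1)).sw := by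
  cases g <;> decide

lemma ver_in (g : Gad) : ∀ j < 5, ∀ z < 8, (g.tile (j + 1) z).nw = (g.tile j (z + 1)).se := by
  cases g <;> decide

lemma hor_out (g g' : Gad) (h : g.out = g'.inn) :
    ∀ z < 8, (g.tile 5 z).ne = (g'.tile 0 (z + 1)).sw := by
  cases g <;> cases g' <;> first | exact absurd h (by decide) | decide

lemma ver_out (g g' : Gad) (h : g.out = g'.inn) :
    ∀ z < 8, (g'.tile 0 z).nw = (g.tile 5 (z + 1)).se := by
  cases g <;> cases g' <;> first | exact absurd h (by decide) | decide

lemma sw_zero (g : Gad) : ∀ j < 6, (g.tile j 0).sw = none := by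
  cases g <;> decide

lemma se_zero (g : Gad) : ∀ j < 6, (g.tile j 0).se = none := by
  cases g <;> decide

/-- the word of a block -/
def word : Gad → List Ev
  | start => [(.l false, 0)]
  | a => letter true
  | b => letter false
  | fin => [(.r false, 0)]
  | emp => []

lemma word_eq (g : Gad) : (List.range 6).flatMap (fun j => colWord 0
    ((List.range 4).map (fun t => g.tile j (2 * t + j % 2)))) = g.word := by
  cases g <;> rfl

end Gad

/-- the sequence of blocks for the letters `L` -/
def gad (L : List Bool) (q : ℕ) : Gad :=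
  if q = 0 then .start
  else if q ≤ L.length then (if L.getD (q - 1) true then .a else .b)
  else if q = L.length + 1 then .fin else .emp

lemma gad_inn (L : List Bool) (q : ℕ) : (gad L q).inn = decide (1 ≤ q ∧ q ≤ L.length + 1) := by
  unfold gad
  split_ifs <;> simp [Gad.inn] <;> omega

lemma gad_out (L : List Bool) (q : ℕ) : (gad L q).out = decide (q ≤ L.length) := by
  unfold gad
  split_ifs <;> simp [Gad.out] <;> omega

lemma gad_compat (L : List Bool) (q : ℕ) : (gad L q).out = (gad L (q + 1)).inn := by
  rw [gad_inn, gad_out, decide_eq_decide]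
  omega

/-- the tile in column `k` at height `z` -/
def gt (L : List Bool) (k z : ℕ) : Tile := (gad L (k / 6)).tile (k % 6) z

lemma gt_high (L : List Bool) (k z : ℕ) (hz : 8 ≤ z) : gt L k z = .blank :=
  Gad.tile_high _ _ _ hz

lemma gt_right (L : List Bool) (k z : ℕ) (hk : 6 * (L.length + 2) ≤ k) : gt L k z = .blank := by
  have h : gad L (k / 6) = .emp := by
    unfold gad
    rw [if_neg (by omega), if_neg (by omega), if_neg (by omega)]
  unfold gt
  rw [h]
  unfold Gad.tile
  split <;> rfl

lemma gt_zero (L : List Bool) (z : ℕ) : gt L 0 z = .blank := by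
  have h : gad L (0 / 6) = .start := rfl
  unfold gt
  rw [h]
  unfold Gad.tile
  split
  · simp [Gad.tab]
  · rfl

lemma gt_hor (L : List Bool) (k z : ℕ) : (gt L k z).ne = (gt L (k + 1) (z + 1)).sw := by
  by_cases hz : 8 ≤ z
  · rw [gt_high L k z hz, gt_high L (k + 1) (z + 1) (by omega)]; rfl
  push Not at hz
  unfold gt
  by_cases hj : k % 6 < 5
  · have e1 : (k + 1) / 6 = k / 6 := by omega
    have e2 : (k + 1) % 6 = k % 6 + 1 := by omega
    rw [e1, e2]
    exact Gad.hor_in _ _ hj _ hz
  · have e1 : (k + 1) / 6 = k / 6 + 1 := by omega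
    have e2 : (k + 1) % 6 = 0 := by omega
    have e3 : k % 6 = 5 := by omega
    rw [e1, e2, e3]
    exact Gad.hor_out _ _ (gad_compat L _) _ hz

lemma gt_ver (L : List Bool) (k z : ℕ) : (gt L (k + 1) z).nw = (gt L k (z + 1)).se := by
  by_cases hz : 8 ≤ z
  · rw [gt_high L (k + 1) z hz, gt_high L k (z + 1) (by omega)]; rfl
  push Not at hz
  unfold gt
  by_cases hj : k % 6 < 5
  · have e1 : (k + 1) / 6 = k / 6 := by omega
    have e2 : (k + 1) % 6 = k % 6 + 1 := by omega
    rw [e1, e2]
    exact Gad.ver_in _ _ hj _ hz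
  · have e1 : (k + 1) / 6 = k / 6 + 1 := by omega
    have e2 : (k + 1) % 6 = 0 := by omega
    have e3 : k % 6 = 5 := by omega
    rw [e1, e2, e3]
    exact Gad.ver_out _ _ (gad_compat L _) _ hz

lemma gt_sw_zero (L : List Bool) (k : ℕ) : (gt L k 0).sw = none :=
  Gad.sw_zero _ _ (Nat.mod_lt _ (by norm_num))

lemma gt_se_zero (L : List Bool) (k : ℕ) : (gt L k 0).se = none :=
  Gad.se_zero _ _ (Nat.mod_lt _ (by norm_num))

/-- height never exceeds the column index -/
lemma gt_left (L : List Bool) (k z : ℕ) (h : k < z) : gt L k z = .blank := by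
  by_cases hz : 8 ≤ z
  · exact gt_high L k z hz
  push Not at hz
  by_cases hk : k < 6
  · have e : gad L (k / 6) = .start := by
      unfold gad
      rw [if_pos (by omega)]
    unfold gt
    rw [e, Nat.mod_eq_of_lt hk]
    have key : ∀ k < 6, ∀ z < 8, k < z → Gad.start.tile k z = .blank := by
      intro k hk z hz hkz
      interval_cases k <;> interval_cases z <;> rfl
    exact key k hk z hz h
  · obtain ⟨rfl, rfl⟩ : k = 6 ∧ z = 7 := by omega
    unfold gt Gad.tile
    rw [if_neg (by decide)]

/-- the tiles of the mosaic of `W L` -/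
def bigTile (L : List Bool) (n : ℤ) (c r : ℤ) : Tile :=
  if 0 ≤ c - r + (n - 1) ∧ 0 ≤ c + r - (n - 1) then
    gt L (c - r + (n - 1)).toNat (c + r - (n - 1)).toNat
  else .blank

lemma bigTile_pos (L : List Bool) (n c r : ℤ) (k z : ℕ) (h1 : c - r + (n - 1) = k)
    (h2 : c + r - (n - 1) = z) : bigTile L n c r = gt L k z := by
  unfold bigTile
  rw [if_pos (by omega), h1, h2, Int.toNat_natCast, Int.toNat_natCast]

lemma bigTile_neg (L : List Bool) (n c r : ℤ)
    (h : ¬ (0 ≤ c - r + (n - 1) ∧ 0 ≤ c + r - (n - 1))) : bigTile L n c r = .blank := if_neg h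

/-- a mosaic of `W L` -/
def bigMosaic (L : List Bool) : Mosaic (3 * L.length + 10) where
  tile := bigTile L (3 * L.length + 10 : ℕ)
  blank := by
    intro c r h
    set n : ℤ := ((3 * L.length + 10 : ℕ) : ℤ) with hn
    by_cases h1 : 0 ≤ c - r + (n - 1) ∧ 0 ≤ c + r - (n - 1)
    · obtain ⟨k, hk⟩ := Int.eq_ofNat_of_zero_le h1.1
      obtain ⟨z, hz⟩ := Int.eq_ofNat_of_zero_le h1.2
      rw [bigTile_pos L n c r k z hk hz]
      by_cases h2 : 8 ≤ z
      · exact gt_high L k z h2
      by_cases h3 : k < z
      · exact gt_left L k z h3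
      apply gt_right
      omega
    · exact bigTile_neg L n c r h1
  hor := by
    intro c r
    set n : ℤ := ((3 * L.length + 10 : ℕ) : ℤ) with hn
    by_cases h1 : 0 ≤ c - r + (n - 1) ∧ 0 ≤ c + r - (n - 1)
    · obtain ⟨k, hk⟩ := Int.eq_ofNat_of_zero_le h1.1
      obtain ⟨z, hz⟩ := Int.eq_ofNat_of_zero_le h1.2
      rw [bigTile_pos L n c r k z hk hz,
        bigTile_pos L n (c + 1) r (k + 1) (z + 1) (by push_cast; linarith) (by push_cast; linarith)]
      exact gt_hor L k z
    · rw [bigTile_neg L n c r h1]
      by_cases h2 : 0 ≤ (c + 1) - r + (n - 1) ∧ 0 ≤ (c + 1) + r - (n - 1)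
      · obtain ⟨k, hk⟩ := Int.eq_ofNat_of_zero_le h2.1
        obtain ⟨z, hz⟩ := Int.eq_ofNat_of_zero_le h2.2
        rw [bigTile_pos L n (c + 1) r k z hk hz]
        rcases Nat.eq_zero_or_pos k with rfl | hk0
        · rw [gt_zero]; rfl
        · obtain rfl : z = 0 := by omega
          rw [gt_sw_zero]; rfl
      · rw [bigTile_neg L n (c + 1) r h2]; rfl
  ver := by
    intro c r
    set n : ℤ := ((3 * L.length + 10 : ℕ) : ℤ) with hn
    by_cases h1 : 0 ≤ c - r + (n - 1) ∧ 0 ≤ c + r - (n - 1)
    · obtain ⟨k, hk⟩ := Int.eq_ofNat_of_zero_le h1.1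
      obtain ⟨z, hz⟩ := Int.eq_ofNat_of_zero_le h1.2
      rw [bigTile_pos L n c r k z hk hz]
      rcases Nat.eq_zero_or_pos k with rfl | hk0
      · rw [gt_zero, bigTile_neg L n c (r + 1) (by omega)]; rfl
      · obtain ⟨k', rfl⟩ := Nat.exists_eq_succ_of_ne_zero hk0.ne'
        rw [bigTile_pos L n c (r + 1) k' (z + 1) (by push_cast at hk; linarith)
          (by push_cast; linarith)]
        exact gt_ver L k' z
    · rw [bigTile_neg L n c r h1]
      by_cases h2 : 0 ≤ c - (r + 1) + (n - 1) ∧ 0 ≤ c + (r + 1) - (n - 1)
      · obtain ⟨k, hk⟩ := Int.eq_ofNat_of_zero_le h2.1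
        obtain ⟨z, hz⟩ := Int.eq_ofNat_of_zero_le h2.2
        rw [bigTile_pos L n c (r + 1) k z hk hz]
        obtain rfl : z = 0 := by omega
        rw [gt_se_zero]; rfl
      · rw [bigTile_neg L n c (r + 1) h2]; rfl

lemma big_col (L : List Bool) (k : ℕ) (hk : k < 6 * (L.length + 2)) :
    colWord 0 ((bigMosaic L).col ((k : ℤ) - (((3 * L.length + 10 : ℕ) : ℤ) - 1))) =
      colWord 0 ((List.range 4).map (fun t => gt L k (2 * t + k % 2))) := by
  unfold Mosaic.col
  rw [col_trim _ (3 * L.length + 10) ((k + 1) / 2) 4 (by omega)]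
  · congr 1
    apply List.map_congr_left
    intro t _
    simp only [bigMosaic]
    refine bigTile_pos L _ _ _ k _ ?_ ?_
    · push_cast; ring
    · push_cast; omega
  · intro t ht
    simp only [bigMosaic]
    refine bigTile_neg L _ _ _ ?_
    omega
  · intro t ht ht'
    simp only [bigMosaic]
    rw [bigTile_pos L _ _ _ k (2 * t - k) (by push_cast; ring) (by push_cast; omega)]
    exact gt_high L k _ (by omega)

lemma big_col_right (L : List Bool) (k : ℕ) (hk : 6 * (L.length + 2) ≤ k) :
    colWord 0 ((bigMosaic L).col ((k : ℤ) - (((3 * L.length + 10 : ℕ) : ℤ) - 1))) = [] := by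
  apply colWord_blanks
  intro T hT
  unfold Mosaic.col at hT
  obtain ⟨t, _, rfl⟩ := List.mem_map.1 hT
  simp only [bigMosaic]
  set c : ℤ := (t : ℤ) with hc
  set r : ℤ := (t : ℤ) - ((k : ℤ) - (((3 * L.length + 10 : ℕ) : ℤ) - 1)) with hr
  by_cases h1 : 0 ≤ c - r + (((3 * L.length + 10 : ℕ) : ℤ) - 1) ∧
      0 ≤ c + r - (((3 * L.length + 10 : ℕ) : ℤ) - 1)
  · obtain ⟨z, hz⟩ := Int.eq_ofNat_of_zero_le h1.2
    rw [bigTile_pos L _ c r k z (by rw [hc, hr]; ring) hz]
    exact gt_right L k z hk
  · exact bigTile_neg L _ c r h1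

lemma flatMap_blocks (f : ℕ → List Ev) (N : ℕ) : (List.range (6 * N)).flatMap f =
    (List.range N).flatMap (fun q => (List.range 6).flatMap (fun j => f (6 * q + j))) := by
  induction N with
  | zero => rfl
  | succ N ih =>
    have e : List.range (N + 1) = List.range N ++ [N] := List.range_succ
    rw [show 6 * (N + 1) = 6 * N + 6 by ring, List.range_add, List.flatMap_append, ih, e,
      List.flatMap_append, List.flatMap_map]
    simp

lemma range_getD (L : List Bool) : (List.range L.length).map (fun i => L.getD i true) = L := by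
  apply List.ext_getElem
  · simp
  · intro i h1 h2
    simp [List.getD_eq_getElem?_getD, List.getElem?_eq_getElem h2]

lemma gad_words (L : List Bool) :
    (List.range (L.length + 2)).flatMap (fun q => (gad L q).word) = W L := by
  rw [List.range_succ, List.flatMap_append, List.range_succ_eq_map, List.flatMap_cons,
    List.flatMap_map]
  have h1 : (List.range L.length).flatMap (fun q => (gad L (q + 1)).word) = letters L := by
    conv_rhs => rw [← range_getD L]
    unfold letters
    rw [List.flatMap_map]
    apply List.flatMap_congr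
    intro q hq
    have hq' := List.mem_range.1 hq
    unfold gad
    rw [if_neg (by omega), if_pos (by omega)]
    simp only [Nat.add_sub_cancel]
    cases L.getD q true <;> rfl
  have h2 : (gad L (L.length + 1)).word = [(Kind.r false, 0)] := by
    unfold gad
    rw [if_neg (by omega), if_neg (by omega), if_pos rfl]
    rfl
  simp only [Nat.succ_eq_add_one, List.flatMap_cons, List.flatMap_nil, List.append_nil]
  rw [h1, h2]
  rfl

theorem bigMosaic_word (L : List Bool) : (bigMosaic L).word = W L := by
  unfold Mosaic.word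
  rw [show 2 * (3 * L.length + 10) - 1 = 6 * (L.length + 2) + 7 by omega, List.range_add,
    List.flatMap_append, flatMap_blocks, List.flatMap_map]
  have h1 : (List.range 7).flatMap (fun k => colWord 0 ((bigMosaic L).col
      (((6 * (L.length + 2) + k : ℕ) : ℤ) - (((3 * L.length + 10 : ℕ) : ℤ) - 1)))) = [] := by
    rw [List.flatMap_eq_nil_iff]
    intro k _
    exact big_col_right L _ (by omega)
  have h2 : (List.range (L.length + 2)).flatMap (fun q => (List.range 6).flatMap (fun j =>
      colWord 0 ((bigMosaic L).col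
        (((6 * q + j : ℕ) : ℤ) - (((3 * L.length + 10 : ℕ) : ℤ) - 1))))) = W L := by
    rw [← gad_words L]
    apply List.flatMap_congr
    intro q hq
    have hq' := List.mem_range.1 hq
    rw [← Gad.word_eq]
    apply List.flatMap_congr
    intro j hj
    have hj' := List.mem_range.1 hj
    rw [big_col L (6 * q + j) (by omega)]
    congr 1
    apply List.map_congr_left
    intro t _
    unfold gt
    rw [show (6 * q + j) / 6 = q by omega, show (6 * q + j) % 6 = j by omega,
      show (6 * q + j) % 2 = j % 2 by omega]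
  rw [h2, h1, List.append_nil]

end Pool.Agent.Helper88.Leg
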