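import Pool.Agent.Helper88.Leg.Defs

/-!
# Additive invariants of Legendrian links
-/

namespace Pool.Agent.Helper88.Leg

/-- total weight of a word -/
def wsum (f : Kind → ℤ) (w : List Ev) : ℤ := (w.map (fun e => f e.1)).sum

@[simp] lemma wsum_nil (f : Kind → ℤ) : wsum f [] = 0 := rfl

@[simp] lemma wsum_cons (f : Kind → ℤ) (e : Ev) (w : List Ev) :
    wsum f (e :: w) = f e.1 + wsum f w := by
  simp [wsum]

@[simp] lemma wsum_append (f : Kind → ℤ) (w w' : List Ev) :
    wsum f (w ++ w') = wsum f w + wsum f w' := by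
  simp [wsum]

/-- a weight is good if it is invariant under all moves -/
def Good (f : Kind → ℤ) : Prop := ∀ a b : List Ev, Move a b → wsum f a = wsum f b

lemma Good.iso {f : Kind → ℤ} (hf : Good f) {g h : Front} (H : Iso g h) :
    wsum f g.1 = wsum f h.1 := by
  obtain ⟨u, v, a, b, hab, h1, h2⟩ := H
  rw [h1, h2]
  simp [hf a b hab]

/-- the invariant of a Legendrian link given by a good weight -/
def LegLink.inv (f : Kind → ℤ) (hf : Good f) (Λ : LegLink) : ℤ :=
  Quot.lift (fun g : Front => wsum f g.1) (fun _ _ H => hf.iso H) Λ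

@[simp] lemma LegLink.inv_mk (f : Kind → ℤ) (hf : Good f) (g : Front) :
    LegLink.inv f hf (LegLink.mk g) = wsum f g.1 := rfl

/-- twice the Thurston-Bennequin number -/
def tbW : Kind → ℤ
  | .l _ => -1
  | .r _ => -1
  | .x b c => if b = c then 2 else -2

/-- `2 (tb + 4 rot)` -/
def phW : Kind → ℤ
  | .l true => 3
  | .l false => -5
  | .r true => -5
  | .r false => 3
  | .x b c => if b = c then 2 else -2

lemma tbW_good : Good tbW := by
  intro a b h
  cases h with
  | far k₁ k₂ i m => simp; ring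
  | r1a o i => cases o <;> simp [tbW]
  | r1b o i => cases o <;> simp [tbW]
  | r2a b c i => cases b <;> cases c <;> simp [tbW]
  | r2b b c i => cases b <;> cases c <;> simp [tbW]
  | r2c b c i => cases b <;> cases c <;> simp [tbW]
  | r2d b c i => cases b <;> cases c <;> simp [tbW]
  | r3 a b c i => simp; ring

lemma phW_good : Good phW := by
  intro a b h
  cases h with
  | far k₁ k₂ i m => simp; ring
  | r1a o i => cases o <;> simp [phW]
  | r1b o i => cases o <;> simp [phW]
  | r2a b c i => cases b <;> cases c <;> simp [phW]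
  | r2b b c i => cases b <;> cases c <;> simp [phW]
  | r2c b c i => cases b <;> cases c <;> simp [phW]
  | r2d b c i => cases b <;> cases c <;> simp [phW]
  | r3 a b c i => simp; ring

/-! ### The mosaic bound -/

/-- sign of an orientation -/
def sg : Option Bool → ℤ
  | none => 0
  | some true => 1
  | some false => -1

@[simp] lemma sg_none : sg none = 0 := rfl

/-- weight of a tile -/
def Tile.ph (T : Tile) : ℤ := wsum phW (T.evs 0)

lemma Tile.ph_evs (T : Tile) (o : ℕ) : wsum phW (T.evs o) = T.ph := by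
  cases T <;> simp [Tile.ph, Tile.evs]

lemma Tile.ph_le (T : Tile) : T.ph ≤ 2 + (sg T.nw - sg T.sw - sg T.ne + sg T.se) := by
  cases T with
  | blank => simp [Tile.ph, Tile.evs, Tile.nw, Tile.sw, Tile.ne, Tile.se]
  | rc b => cases b <;> simp [Tile.ph, Tile.evs, Tile.nw, Tile.sw, Tile.ne, Tile.se, phW, sg]
  | lc b => cases b <;> simp [Tile.ph, Tile.evs, Tile.nw, Tile.sw, Tile.ne, Tile.se, phW, sg]
  | cap b => cases b <;> simp [Tile.ph, Tile.evs, Tile.nw, Tile.sw, Tile.ne, Tile.se, sg]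
  | cup b => cases b <;> simp [Tile.ph, Tile.evs, Tile.nw, Tile.sw, Tile.ne, Tile.se, sg]
  | up b => cases b <;> simp [Tile.ph, Tile.evs, Tile.nw, Tile.sw, Tile.ne, Tile.se, sg]
  | dn b => cases b <;> simp [Tile.ph, Tile.evs, Tile.nw, Tile.sw, Tile.ne, Tile.se, sg]
  | cc b c =>
    cases b <;> cases c <;>
      simp [Tile.ph, Tile.evs, Tile.nw, Tile.sw, Tile.ne, Tile.se, phW, sg]
  | ss b c =>
    cases b <;> cases c <;> simp [Tile.ph, Tile.evs, Tile.nw, Tile.sw, Tile.ne, Tile.se, sg]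
  | xx b c =>
    cases b <;> cases c <;>
      simp [Tile.ph, Tile.evs, Tile.nw, Tile.sw, Tile.ne, Tile.se, phW, sg]

lemma Tile.cons (T : Tile) : sg T.nw + sg T.sw = sg T.ne + sg T.se := by
  cases T with
  | blank => simp [Tile.nw, Tile.sw, Tile.ne, Tile.se]
  | rc b => cases b <;> simp [Tile.nw, Tile.sw, Tile.ne, Tile.se, sg]
  | lc b => cases b <;> simp [Tile.nw, Tile.sw, Tile.ne, Tile.se, sg]
  | cap b => cases b <;> simp [Tile.nw, Tile.sw, Tile.ne, Tile.se, sg]
  | cup b => cases b <;> simp [Tile.nw, Tile.sw, Tile.ne, Tile.se, sg]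
  | up b => cases b <;> simp [Tile.nw, Tile.sw, Tile.ne, Tile.se, sg]
  | dn b => cases b <;> simp [Tile.nw, Tile.sw, Tile.ne, Tile.se, sg]
  | cc b c => cases b <;> cases c <;> simp [Tile.nw, Tile.sw, Tile.ne, Tile.se, sg]
  | ss b c => cases b <;> cases c <;> simp [Tile.nw, Tile.sw, Tile.ne, Tile.se, sg]
  | xx b c => cases b <;> cases c <;> simp [Tile.nw, Tile.sw, Tile.ne, Tile.se, sg]

lemma colWord_ph (L : List Tile) : ∀ o : ℕ, wsum phW (colWord o L) = (L.map Tile.ph).sum := by
  induction L with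
  | nil => intro o; simp [colWord]
  | cons T L ih => intro o; simp [colWord, ih, Tile.ph_evs]

lemma wsum_flatMap (f : Kind → ℤ) (g : ℕ → List Ev) (N : ℕ) :
    wsum f ((List.range N).flatMap g) = ∑ k ∈ Finset.range N, wsum f (g k) := by
  induction N with
  | zero => simp
  | succ N ih => rw [List.range_succ, List.flatMap_append, wsum_append, ih,
      Finset.sum_range_succ]; simp

/-- reindexing of a sum over a line of the mosaic -/
lemma sum_line (n : ℕ) (t : ℕ) (ht : t < n) (g : ℤ → ℤ) (hg : ∀ r : ℤ, ¬ (0 ≤ r ∧ r < n) → g r = 0) :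
    ∑ k ∈ Finset.range (2 * n - 1), g ((t : ℤ) - ((k : ℤ) - ((n : ℤ) - 1))) =
      ∑ r ∈ Finset.range n, g (r : ℤ) := by
  refine Finset.sum_bij_ne_zero
    (fun k _ _ => ((t : ℤ) - ((k : ℤ) - ((n : ℤ) - 1))).toNat) ?_ ?_ ?_ ?_
  · intro k hk hne
    have := Finset.mem_range.1 hk
    by_contra hcon
    apply hne
    apply hg
    intro hh
    apply hcon
    rw [Finset.mem_range]
    omega
  · intro k hk hne k' hk' hne' he
    have h1 : 0 ≤ (t : ℤ) - ((k : ℤ) - ((n : ℤ) - 1)) ∧ (t : ℤ) - ((k : ℤ) - ((n : ℤ) - 1)) < n := by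
      by_contra hcon
      exact hne (hg _ hcon)
    have h2 : 0 ≤ (t : ℤ) - ((k' : ℤ) - ((n : ℤ) - 1)) ∧
        (t : ℤ) - ((k' : ℤ) - ((n : ℤ) - 1)) < n := by
      by_contra hcon
      exact hne' (hg _ hcon)
    omega
  · intro r hr hne
    have := Finset.mem_range.1 hr
    refine ⟨t + (n - 1) - r, ?_, ?_, ?_⟩
    · rw [Finset.mem_range]; omega
    · have : (t : ℤ) - (((t + (n - 1) - r : ℕ) : ℤ) - ((n : ℤ) - 1)) = r := by omega
      rw [this]; exact hne
    · omega
  · intro k hk hne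
    have h1 : 0 ≤ (t : ℤ) - ((k : ℤ) - ((n : ℤ) - 1)) ∧ (t : ℤ) - ((k : ℤ) - ((n : ℤ) - 1)) < n := by
      by_contra hcon
      exact hne (hg _ hcon)
    congr 1
    omega

namespace Mosaic

variable {n : ℕ} (M : Mosaic n)

lemma wsum_word : wsum phW M.word =
    ∑ c ∈ Finset.range n, ∑ r ∈ Finset.range n, (M.tile c r).ph := by
  unfold word
  rw [wsum_flatMap]
  have h1 : ∀ k ∈ Finset.range (2 * n - 1),
      wsum phW (colWord 0 (M.col ((k : ℤ) - ((n : ℤ) - 1)))) =
        ∑ t ∈ Finset.range n, (M.tile t ((t : ℤ) - ((k : ℤ) - ((n : ℤ) - 1)))).ph := by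
    intro k _
    rw [colWord_ph, col, List.map_map, Finset.sum_range, ← List.sum_ofFn, List.ofFn_eq_map,
      ← List.map_coe_finRange_eq_range, List.map_map]
    rfl
  rw [Finset.sum_congr rfl h1, Finset.sum_comm]
  refine Finset.sum_congr rfl (fun t ht => ?_)
  refine sum_line n t (Finset.mem_range.1 ht) (fun r => (M.tile t r).ph) ?_
  intro r hr
  rw [M.blank t r (by tauto)]
  rfl

/-- the flux through the mosaic vanishes -/
lemma flux : ∑ c ∈ Finset.range n, ∑ r ∈ Finset.range n,
    (sg (M.tile c r).nw - sg (M.tile c r).sw - sg (M.tile c r).ne + sg (M.tile c r).se) = 0 := by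
  -- vertical sums
  have hV : ∀ c : ℤ, ∑ r ∈ Finset.range n, sg (M.tile c r).nw =
      ∑ r ∈ Finset.range n, sg (M.tile c r).se := by
    intro c
    have h := Finset.sum_range_sub (fun r : ℕ => sg (M.tile c (r : ℤ)).se) n
    have h0 : sg (M.tile c ((0 : ℕ) : ℤ)).se = 0 := by
      have := M.ver c (-1)
      rw [M.blank c (-1) (by omega)] at this
      norm_num at this
      rw [Nat.cast_zero, ← this]; rfl
    have hn : sg (M.tile c (n : ℤ)).se = 0 := by
      rw [M.blank c n (by omega)]; rfl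
    rw [h0, hn, Finset.sum_sub_distrib] at h
    have h' : ∀ r ∈ Finset.range n, sg (M.tile c ((r + 1 : ℕ) : ℤ)).se = sg (M.tile c r).nw := by
      intro r _
      rw [M.ver c r]
      push_cast
      rfl
    rw [Finset.sum_congr rfl h'] at h
    linarith
  have hH : ∀ r : ℤ, ∑ c ∈ Finset.range n, sg (M.tile c r).ne =
      ∑ c ∈ Finset.range n, sg (M.tile c r).sw := by
    intro r
    have h := Finset.sum_range_sub (fun c : ℕ => sg (M.tile (c : ℤ) r).sw) n
    have h0 : sg (M.tile ((0 : ℕ) : ℤ) r).sw = 0 := by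
      have := M.hor (-1) r
      rw [M.blank (-1) r (by omega)] at this
      norm_num at this
      rw [Nat.cast_zero, ← this]; rfl
    have hn : sg (M.tile (n : ℤ) r).sw = 0 := by
      rw [M.blank n r (by omega)]; rfl
    rw [h0, hn, Finset.sum_sub_distrib] at h
    have h' : ∀ c ∈ Finset.range n, sg (M.tile ((c + 1 : ℕ) : ℤ) r).sw = sg (M.tile c r).ne := by
      intro c _
      rw [M.hor c r]
      push_cast
      rfl
    rw [Finset.sum_congr rfl h'] at h
    linarith
  -- weighted sums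
  have hV2 : ∀ c : ℤ, ∑ r ∈ Finset.range n, (c + r) * (sg (M.tile c r).nw - sg (M.tile c r).se) =
      - ∑ r ∈ Finset.range n, sg (M.tile c r).nw := by
    intro c
    have h := Finset.sum_range_sub (fun r : ℕ => (c + r) * sg (M.tile c (r : ℤ)).se) n
    have h0 : sg (M.tile c ((0 : ℕ) : ℤ)).se = 0 := by
      have := M.ver c (-1)
      rw [M.blank c (-1) (by omega)] at this
      norm_num at this
      rw [Nat.cast_zero, ← this]; rfl
    have hn : sg (M.tile c (n : ℤ)).se = 0 := by
      rw [M.blank c n (by omega)]; rfl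
    rw [h0, hn] at h
    have h' : ∀ r ∈ Finset.range n,
        (c + ((r + 1 : ℕ) : ℤ)) * sg (M.tile c ((r + 1 : ℕ) : ℤ)).se -
          (c + r) * sg (M.tile c (r : ℤ)).se =
        (c + r) * (sg (M.tile c r).nw - sg (M.tile c r).se) + sg (M.tile c r).nw := by
      intro r _
      rw [M.ver c r]
      push_cast
      ring
    rw [Finset.sum_congr rfl h', Finset.sum_add_distrib] at h
    linarith
  have hH2 : ∀ r : ℤ, ∑ c ∈ Finset.range n, (c + r) * (sg (M.tile c r).ne - sg (M.tile c r).sw) =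
      - ∑ c ∈ Finset.range n, sg (M.tile c r).ne := by
    intro r
    have h := Finset.sum_range_sub (fun c : ℕ => (c + r) * sg (M.tile (c : ℤ) r).sw) n
    have h0 : sg (M.tile ((0 : ℕ) : ℤ) r).sw = 0 := by
      have := M.hor (-1) r
      rw [M.blank (-1) r (by omega)] at this
      norm_num at this
      rw [Nat.cast_zero, ← this]; rfl
    have hn : sg (M.tile (n : ℤ) r).sw = 0 := by
      rw [M.blank n r (by omega)]; rfl
    rw [h0, hn] at h
    have h' : ∀ c ∈ Finset.range n,
        (((c + 1 : ℕ) : ℤ) + r) * sg (M.tile ((c + 1 : ℕ) : ℤ) r).sw -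
          (c + r) * sg (M.tile (c : ℤ) r).sw =
        (c + r) * (sg (M.tile c r).ne - sg (M.tile c r).sw) + sg (M.tile c r).ne := by
      intro c _
      rw [M.hor c r]
      push_cast
      ring
    rw [Finset.sum_congr rfl h', Finset.sum_add_distrib] at h
    linarith
  -- totals
  have e0 : ∑ c ∈ Finset.range n, ∑ r ∈ Finset.range n,
      ((c + r) * (sg (M.tile c r).nw - sg (M.tile c r).se) -
        (c + r) * (sg (M.tile c r).ne - sg (M.tile c r).sw)) = 0 := by
    refine Finset.sum_eq_zero (fun c _ => Finset.sum_eq_zero (fun r _ => ?_))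
    have := (M.tile c r).cons
    have h : sg (M.tile c r).nw - sg (M.tile c r).se - (sg (M.tile c r).ne - sg (M.tile c r).sw) = 0 := by
      linarith
    rw [← mul_sub, h, mul_zero]
  have e1 : ∑ c ∈ Finset.range n, ∑ r ∈ Finset.range n,
      (c + r) * (sg (M.tile c r).nw - sg (M.tile c r).se) =
        - ∑ c ∈ Finset.range n, ∑ r ∈ Finset.range n, sg (M.tile c r).nw := by
    rw [← Finset.sum_neg_distrib]
    exact Finset.sum_congr rfl (fun c _ => hV2 c)
  have e2 : ∑ c ∈ Finset.range n, ∑ r ∈ Finset.range n,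
      (c + r) * (sg (M.tile c r).ne - sg (M.tile c r).sw) =
        - ∑ c ∈ Finset.range n, ∑ r ∈ Finset.range n, sg (M.tile c r).ne := by
    rw [Finset.sum_comm, Finset.sum_comm (f := fun c r : ℕ => sg (M.tile c r).ne),
      ← Finset.sum_neg_distrib]
    exact Finset.sum_congr rfl (fun r _ => hH2 r)
  simp only [Finset.sum_sub_distrib] at e0
  have e3 : ∑ c ∈ Finset.range n, ∑ r ∈ Finset.range n, sg (M.tile c r).nw =
      ∑ c ∈ Finset.range n, ∑ r ∈ Finset.range n, sg (M.tile c r).se :=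
    Finset.sum_congr rfl (fun c _ => hV c)
  have e4 : ∑ c ∈ Finset.range n, ∑ r ∈ Finset.range n, sg (M.tile c r).ne =
      ∑ c ∈ Finset.range n, ∑ r ∈ Finset.range n, sg (M.tile c r).sw := by
    rw [Finset.sum_comm, Finset.sum_comm (f := fun c r : ℕ => sg (M.tile c r).sw)]
    exact Finset.sum_congr rfl (fun r _ => hH r)
  simp only [Finset.sum_sub_distrib, Finset.sum_add_distrib]
  linarith

/-- the bound `2 (tb + 4 rot) ≤ 2 n²` for fronts of `n`-mosaics -/
theorem word_le : wsum phW M.word ≤ 2 * (n : ℤ) ^ 2 := by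
  rw [M.wsum_word]
  have h : ∑ c ∈ Finset.range n, ∑ r ∈ Finset.range n, (M.tile c r).ph ≤
      ∑ c ∈ Finset.range n, ∑ r ∈ Finset.range n, (2 +
    (sg (M.tile c r).nw - sg (M.tile c r).sw - sg (M.tile c r).ne + sg (M.tile c r).se)) :=
    Finset.sum_le_sum (fun c _ => Finset.sum_le_sum (fun r _ => Tile.ph_le _))
  refine h.trans ?_
  have h2 := M.flux
  have h3 : ∑ c ∈ Finset.range n, ∑ r ∈ Finset.range n, (2 +
    (sg (M.tile c r).nw - sg (M.tile c r).sw - sg (M.tile c r).ne + sg (M.tile c r).se)) =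
      ∑ c ∈ Finset.range n, ∑ r ∈ Finset.range n, (2 : ℤ) +
      ∑ c ∈ Finset.range n, ∑ r ∈ Finset.range n,
    (sg (M.tile c r).nw - sg (M.tile c r).sw - sg (M.tile c r).ne + sg (M.tile c r).se) := by
    rw [← Finset.sum_add_distrib]
    exact Finset.sum_congr rfl (fun c _ => by rw [← Finset.sum_add_distrib])
  rw [h3, h2]
  simp
  nlinarith

end Mosaic

/-- if `Λ` has a front on an `n`-mosaic then `tb Λ + 4 rot Λ ≤ n²` -/
theorem link_le {n : ℕ} (M : Mosaic n) : LegLink.inv phW phW_good M.link ≤ 2 * (n : ℤ) ^ 2 := by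
  unfold Mosaic.link
  rw [LegLink.inv_mk]
  exact M.word_le

end Pool.Agent.Helper88.Leg
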