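import Pool.Agent.Helper88.Leg.Inv

/-!
# Planar isotopies of fronts and word lemmas
-/

namespace Pool.Agent.Helper88.Leg

/-- planar isotopy: words related by exchanging consecutive far pieces -/
inductive Pl : List Ev → List Ev → Prop
  | far (u v : List Ev) (k₁ k₂ : Kind) (i m : ℕ) :
      Pl (u ++ [(k₁, i), (k₂, i + k₁.tgt.length + m)] ++ v)
        (u ++ [(k₂, i + k₁.src.length + m), (k₁, i)] ++ v)
  | refl (w : List Ev) : Pl w w
  | symm {w w' : List Ev} : Pl w w' → Pl w' w
  | trans {w w' w'' : List Ev} : Pl w w' → Pl w' w'' → Pl w w''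

lemma Pl.ctx {w w' : List Ev} (h : Pl w w') (a b : List Ev) : Pl (a ++ w ++ b) (a ++ w' ++ b) := by
  induction h with
  | far u v k₁ k₂ i m =>
    have := Pl.far (a ++ u) (v ++ b) k₁ k₂ i m
    simpa [List.append_assoc] using this
  | refl w => exact Pl.refl _
  | symm _ ih => exact ih.symm
  | trans _ _ ih1 ih2 => exact ih1.trans ih2

lemma Pl.left {w w' : List Ev} (h : Pl w w') (a : List Ev) : Pl (a ++ w) (a ++ w') := by
  simpa using h.ctx a []

lemma Pl.right {w w' : List Ev} (h : Pl w w') (b : List Ev) : Pl (w ++ b) (w' ++ b) := by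
  simpa using h.ctx [] b

lemma Pl.append {w w' z z' : List Ev} (h : Pl w w') (h' : Pl z z') : Pl (w ++ z) (w' ++ z') :=
  (h.right z).trans (h'.left w')

lemma Run.split {w w' : List Ev} : ∀ {s s'' : List Bool}, Run s (w ++ w') s'' →
    ∃ s', Run s w s' ∧ Run s' w' s'' := by
  induction w with
  | nil => intro s s'' h; exact ⟨s, Run.nil s, by simpa using h⟩
  | cons e w ih =>
    intro s s'' h
    rw [List.cons_append] at h
    cases h with
    | cons hs hr =>
      obtain ⟨t, h1, h2⟩ := ih hr
      exact ⟨t, Run.cons hs h1, h2⟩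

lemma run_append {s s'' : List Bool} {w w' : List Ev} :
    Run s (w ++ w') s'' ↔ ∃ s', Run s w s' ∧ Run s' w' s'' :=
  ⟨Run.split, fun ⟨_, h1, h2⟩ => h1.append h2⟩

lemma run_cons {s s'' : List Bool} {e : Ev} {w : List Ev} :
    Run s (e :: w) s'' ↔ ∃ s', Step s e s' ∧ Run s' w s'' :=
  ⟨fun h => by cases h with | cons hs hr => exact ⟨_, hs, hr⟩, fun ⟨_, h1, h2⟩ => Run.cons h1 h2⟩

lemma run_nil {s s' : List Bool} : Run s [] s' ↔ s' = s :=
  ⟨fun h => by cases h; rfl, fun h => h ▸ Run.nil _⟩

lemma run_pair {s s'' : List Bool} {e e' : Ev} :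
    Run s [e, e'] s'' ↔ ∃ s', Step s e s' ∧ Step s' e' s'' := by
  rw [run_cons]
  constructor
  · rintro ⟨s', h1, h2⟩
    rw [run_cons] at h2
    obtain ⟨t, h3, h4⟩ := h2
    rw [run_nil] at h4
    exact ⟨s', h1, h4 ▸ h3⟩
  · rintro ⟨s', h1, h2⟩
    exact ⟨s', h1, Run.cons h2 (Run.nil _)⟩

/-- splitting two decompositions of a list -/
lemma split_aux {a b a' b' : List Bool} (h : a ++ b = a' ++ b') (hl : a.length ≤ a'.length) :
    ∃ p, a' = a ++ p ∧ b = p ++ b' := by
  have h1 : a <+: a' ++ b' := h ▸ List.prefix_append a b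
  obtain ⟨p, hp⟩ := List.prefix_of_prefix_length_le h1 (List.prefix_append a' b') hl
  refine ⟨p, hp.symm, ?_⟩
  rw [← hp, List.append_assoc] at h
  exact List.append_cancel_left h

lemma far_run (k₁ k₂ : Kind) (i m : ℕ) (s s'' : List Bool) :
    Run s [(k₁, i), (k₂, i + k₁.tgt.length + m)] s'' ↔
      Run s [(k₂, i + k₁.src.length + m), (k₁, i)] s'' := by
  rw [run_pair, run_pair]
  constructor
  · rintro ⟨s', ⟨u, v, hu, rfl, hs'⟩, ⟨u', v', hu', hs'2, rfl⟩⟩
    simp only at hu hu' hs' hs'2
    rw [hs', List.append_assoc u' _ _] at hs'2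
    obtain ⟨p, rfl, rfl⟩ := split_aux hs'2 (by simp; omega)
    have hp : p.length = m := by
      simp at hu'; omega
    refine ⟨u ++ k₁.src ++ p ++ k₂.tgt ++ v', ⟨u ++ k₁.src ++ p, v', ?_, ?_, ?_⟩,
      ⟨u, p ++ k₂.tgt ++ v', ?_, ?_, ?_⟩⟩
    · simp; omega
    · simp
    · simp
    · exact hu
    · simp
    · simp
  · rintro ⟨s', ⟨u', v', hu', rfl, hs'⟩, ⟨u, v, hu, hs'2, rfl⟩⟩
    simp only at hu hu' hs' hs'2
    rw [hs', List.append_assoc u' _ _] at hs'2
    obtain ⟨p, hp1, hp2⟩ := split_aux hs'2.symm (by simp; omega)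
    subst hp1
    subst hp2
    have hp : p.length = m := by
      simp at hu'; omega
    refine ⟨u ++ k₁.tgt ++ p ++ k₂.src ++ v', ⟨u, p ++ k₂.src ++ v', ?_, ?_, ?_⟩,
      ⟨u ++ k₁.tgt ++ p, v', ?_, ?_, ?_⟩⟩
    · exact hu
    · simp
    · simp
    · simp; omega
    · simp
    · simp

lemma Pl.run {w w' : List Ev} (h : Pl w w') : ∀ s s' : List Bool, Run s w s' ↔ Run s w' s' := by
  induction h with
  | far u v k₁ k₂ i m =>
    intro s s'
    rw [run_append, run_append]
    simp only [run_append, far_run]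
  | refl w => exact fun _ _ => Iff.rfl
  | symm _ ih => exact fun s s' => (ih s s').symm
  | trans _ _ ih1 ih2 => exact fun s s' => (ih1 s s').trans (ih2 s s')

/-- planar isotopic fronts are Legendrian isotopic -/
lemma Pl.mk {w w' : List Ev} (h : Pl w w') : ∀ (hw : Run [] w []) (hw' : Run [] w' []),
    LegLink.mk ⟨w, hw⟩ = LegLink.mk ⟨w', hw'⟩ := by
  induction h with
  | far u v k₁ k₂ i m =>
    intro hw hw'
    exact Quot.sound ⟨u, v, _, _, Move.far k₁ k₂ i m, rfl, rfl⟩
  | refl w => exact fun _ _ => rfl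
  | symm _ ih => exact fun h1 h2 => (ih h2 h1).symm
  | trans h1 _ ih1 ih2 =>
    intro hw hw'
    have hm := (h1.run [] []).1 hw
    exact (ih1 hw hm).trans (ih2 hm hw')

/-! ### Word lemmas -/

/-- left cusps at heights `o, o+2, …` -/
def Lb (b : Bool) (o h : ℕ) : List Ev := (List.range h).map (fun j => (.l b, o + 2 * j))

/-- right cusps at height `o` -/
def Rb (b : Bool) (o h : ℕ) : List Ev := List.replicate h (.r b, o)

/-- doubles `r_o l_o r_{o+2} l_{o+2} …` -/
def Db (b : Bool) (o h : ℕ) : List Ev :=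
  (List.range h).flatMap (fun j => [(.r b, o + 2 * j), (.l b, o + 2 * j)])

@[simp] lemma Lb_zero (b : Bool) (o : ℕ) : Lb b o 0 = [] := rfl
@[simp] lemma Rb_zero (b : Bool) (o : ℕ) : Rb b o 0 = [] := rfl
@[simp] lemma Db_zero (b : Bool) (o : ℕ) : Db b o 0 = [] := rfl

lemma Lb_succ (b : Bool) (o h : ℕ) : Lb b o (h + 1) = Lb b o h ++ [(.l b, o + 2 * h)] := by
  simp [Lb, List.range_succ]

lemma Lb_succ' (b : Bool) (o h : ℕ) : Lb b o (h + 1) = (.l b, o) :: Lb b (o + 2) h := by
  simp only [Lb, List.range_succ_eq_map, List.map_cons, List.map_map]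
  congr 1
  apply List.map_congr_left
  intro j _
  simp; ring

lemma Rb_succ (b : Bool) (o h : ℕ) : Rb b o (h + 1) = (.r b, o) :: Rb b o h := by
  simp [Rb, List.replicate_succ]

lemma Rb_succ' (b : Bool) (o h : ℕ) : Rb b o (h + 1) = Rb b o h ++ [(.r b, o)] := by
  simp [Rb, List.replicate_succ']

lemma Db_succ (b : Bool) (o h : ℕ) :
    Db b o (h + 1) = Db b o h ++ [(.r b, o + 2 * h), (.l b, o + 2 * h)] := by
  simp [Db, List.range_succ]

lemma Db_succ' (b : Bool) (o h : ℕ) :
    Db b o (h + 1) = [(.r b, o), (.l b, o)] ++ Db b (o + 2) h := by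
  simp only [Db, List.range_succ_eq_map, List.flatMap_cons, List.flatMap_map]
  congr 1
  congr 1
  funext j
  simp; omega

/-- the far move in the form of a swap -/
lemma swap (k₁ k₂ : Kind) (i j j' : ℕ) (m : ℕ) (h1 : j = i + k₁.tgt.length + m)
    (h2 : j' = i + k₁.src.length + m) : Pl [(k₁, i), (k₂, j)] [(k₂, j'), (k₁, i)] := by
  subst h1; subst h2
  simpa using Pl.far [] [] k₁ k₂ i m

/-- moving a right cusp from above to the left through a bunch of left cusps -/
lemma Lb_r (b c : Bool) (o h : ℕ) :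
    Pl (Lb b o h ++ [(.r c, o + 2 * h)]) ([(.r c, o)] ++ Lb b o h) := by
  induction h with
  | zero => simpa using Pl.refl _
  | succ h ih =>
    rw [Lb_succ]
    have h1 : Pl [(Kind.l b, o + 2 * h), (Kind.r c, o + 2 * (h + 1))]
        [(Kind.r c, o + 2 * h), (Kind.l b, o + 2 * h)] :=
      swap _ _ _ _ _ 0 (by simp [Kind.tgt]; ring) (by simp [Kind.src])
    have h2 := (h1.left (Lb b o h))
    have h3 := ih.right [(Kind.l b, o + 2 * h)]
    simp only [List.append_assoc, List.cons_append, List.nil_append] at h2 h3 ⊢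
    exact h2.trans h3

lemma Db_eq (b : Bool) (o h : ℕ) : Pl (Db b o h) (Rb b o h ++ Lb b o h) := by
  induction h with
  | zero => exact Pl.refl _
  | succ h ih =>
    rw [Db_succ, Rb_succ', Lb_succ]
    have h1 := ih.right [(Kind.r b, o + 2 * h), (Kind.l b, o + 2 * h)]
    have h2 := (Lb_r b b o h).ctx (Rb b o h) [(Kind.l b, o + 2 * h)]
    simp only [List.append_assoc, List.cons_append, List.nil_append] at h1 h2 ⊢
    exact h1.trans h2

/-- moving a left cusp from below to the right through right cusps -/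
lemma l_Rb (b c : Bool) (o h : ℕ) :
    Pl ([(.l c, o)] ++ Rb b (o + 2) h) (Rb b o h ++ [(.l c, o)]) := by
  induction h with
  | zero => simpa using Pl.refl _
  | succ h ih =>
    rw [Rb_succ, Rb_succ]
    have h1 : Pl [(Kind.l c, o), (Kind.r b, o + 2)] [(Kind.r b, o), (Kind.l c, o)] :=
      swap _ _ _ _ _ 0 (by simp [Kind.tgt]) (by simp [Kind.src])
    have h2 := h1.right (Rb b (o + 2) h)
    have h3 := ih.left [(Kind.r b, o)]
    simp only [List.append_assoc, List.cons_append, List.nil_append] at h2 h3 ⊢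
    exact h2.trans h3

lemma l_Rb' (b c : Bool) (o h : ℕ) :
    Pl ([(.l c, o)] ++ Rb b (o + 3) h) (Rb b (o + 1) h ++ [(.l c, o)]) := by
  induction h with
  | zero => simpa using Pl.refl _
  | succ h ih =>
    rw [Rb_succ, Rb_succ]
    have h1 : Pl [(Kind.l c, o), (Kind.r b, o + 3)] [(Kind.r b, o + 1), (Kind.l c, o)] :=
      swap _ _ _ _ _ 1 (by simp [Kind.tgt]) (by simp [Kind.src])
    have h2 := h1.right (Rb b (o + 3) h)
    have h3 := ih.left [(Kind.r b, o + 1)]
    simp only [List.append_assoc, List.cons_append, List.nil_append] at h2 h3 ⊢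
    exact h2.trans h3

/-- left even columns -/
lemma l_Db (b : Bool) (o h : ℕ) :
    Pl ([(.l b, o)] ++ Db b (o + 2) h) (Rb b o h ++ Lb b o (h + 1)) := by
  have h1 := (Db_eq b (o + 2) h).left [(Kind.l b, o)]
  have h2 := (l_Rb b b o h).right (Lb b (o + 2) h)
  rw [Lb_succ']
  simp only [List.append_assoc, List.cons_append, List.nil_append] at h1 h2 ⊢
  exact h1.trans h2

/-- left odd columns -/
lemma Db_l (b : Bool) (o h : ℕ) :
    Pl (Db b o h ++ [(.l b, o + 2 * h)]) (Rb b o h ++ Lb b o (h + 1)) := by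
  have h1 := (Db_eq b o h).right [(Kind.l b, o + 2 * h)]
  rw [Lb_succ]
  simpa only [List.append_assoc, List.cons_append, List.nil_append] using h1

/-- right even columns -/
lemma r_Db (b : Bool) (o h : ℕ) :
    Pl ([(.r b, o)] ++ Db b o h) (Rb b o (h + 1) ++ Lb b o h) := by
  have h1 := (Db_eq b o h).left [(Kind.r b, o)]
  rw [Rb_succ]
  simpa only [List.append_assoc, List.cons_append, List.nil_append] using h1

/-- right odd columns -/
lemma Db_r (b : Bool) (o h : ℕ) :
    Pl (Db b o h ++ [(.r b, o + 2 * h)]) (Rb b o (h + 1) ++ Lb b o h) := by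
  have h1 := (Db_eq b o h).right [(Kind.r b, o + 2 * h)]
  have h2 := (Lb_r b b o h).left (Rb b o h)
  rw [Rb_succ']
  simp only [List.append_assoc, List.cons_append, List.nil_append] at h1 h2 ⊢
  exact h1.trans h2

/-- moving a left cusp to the right through left cusps -/
lemma l_Lb (b : Bool) (o h : ℕ) :
    Pl ([(.l b, o)] ++ Lb b (o + 2) h) (Lb b o h ++ [(.l b, o)]) := by
  induction h with
  | zero => simpa using Pl.refl _
  | succ h ih =>
    rw [Lb_succ, Lb_succ]
    have h1 : Pl [(Kind.l b, o), (Kind.l b, o + 2 + 2 * h)]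
        [(Kind.l b, o + 2 * h), (Kind.l b, o)] :=
      swap _ _ _ _ _ (2 * h) (by simp [Kind.tgt]) (by simp [Kind.src])
    have h2 := ih.right [(Kind.l b, o + 2 + 2 * h)]
    have h3 := h1.left (Lb b o h)
    simp only [List.append_assoc, List.cons_append, List.nil_append] at h2 h3 ⊢
    exact h2.trans h3

/-- moving a right cusp to the right through right cusps -/
lemma r_Rb (b : Bool) (o h : ℕ) :
    Pl ([(.r b, o)] ++ Rb b o h) (Rb b (o + 2) h ++ [(.r b, o)]) := by
  induction h with
  | zero => simpa using Pl.refl _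
  | succ h ih =>
    rw [Rb_succ, Rb_succ]
    have h1 : Pl [(Kind.r b, o), (Kind.r b, o)] [(Kind.r b, o + 2), (Kind.r b, o)] :=
      swap _ _ _ _ _ 0 (by simp [Kind.tgt]) (by simp [Kind.src])
    have h2 := h1.right (Rb b o h)
    have h3 := ih.left [(Kind.r b, o + 2)]
    simp only [List.append_assoc, List.cons_append, List.nil_append] at h2 h3 ⊢
    exact h2.trans h3

/-- moving a right cusp from below to the left through left cusps -/
lemma Lb_r_below (b c : Bool) (o h : ℕ) :
    Pl (Lb b (o + 3) h ++ [(.r c, o)]) ([(.r c, o)] ++ Lb b (o + 1) h) := by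
  induction h with
  | zero => simpa using Pl.refl _
  | succ h ih =>
    rw [Lb_succ, Lb_succ]
    have h1 : Pl [(Kind.r c, o), (Kind.l b, o + 1 + 2 * h)]
        [(Kind.l b, o + 3 + 2 * h), (Kind.r c, o)] :=
      swap _ _ _ _ _ (1 + 2 * h) (by simp [Kind.tgt]; ring) (by simp [Kind.src]; ring)
    have h2 := h1.symm.left (Lb b (o + 3) h)
    have h3 := ih.right [(Kind.l b, o + 1 + 2 * h)]
    simp only [List.append_assoc, List.cons_append, List.nil_append] at h2 h3 ⊢
    exact h2.trans h3

/-! ### Letters -/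

/-- `letter true` is a downward zigzag, `letter false` an upward zigzag of the upper strand -/
def letter : Bool → List Ev
  | true => [(.l true, 1), (.r false, 2)]
  | false => [(.l false, 2), (.r true, 1)]

/-- concatenation of letters -/
def letters (L : List Bool) : List Ev := L.flatMap letter

@[simp] lemma letters_nil : letters [] = [] := rfl

@[simp] lemma letters_cons (b : Bool) (L : List Bool) :
    letters (b :: L) = letter b ++ letters L := by simp [letters]

@[simp] lemma letters_append (L L' : List Bool) :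
    letters (L ++ L') = letters L ++ letters L' := by simp [letters]

/-- a bunch of downward zigzags -/
lemma strandA (h : ℕ) :
    Pl (Lb true 1 h ++ Rb false 2 h) (letters (List.replicate h true)) := by
  induction h with
  | zero => exact Pl.refl _
  | succ h ih =>
    rw [Lb_succ', Rb_succ, List.replicate_succ', letters_append]
    have h1 := (l_Lb true 1 h).right ([(Kind.r false, 2)] ++ Rb false 2 h)
    have h2 := (r_Rb false 2 h).left (Lb true 1 h ++ [(Kind.l true, 1)])
    have h3 := (l_Rb' false true 1 h).ctx (Lb true 1 h) [(Kind.r false, 2)]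
    have h4 := ih.right (letter true)
    simp only [List.append_assoc, List.cons_append, List.nil_append, letter, letters_cons,
      letters_nil] at h1 h2 h3 h4 ⊢
    exact h1.trans (h2.trans (h3.trans h4))

/-- a bunch of upward zigzags -/
lemma strandB (h : ℕ) :
    Pl (Lb false 2 h ++ Rb true 1 h) (letters (List.replicate h false)) := by
  induction h with
  | zero => exact Pl.refl _
  | succ h ih =>
    rw [Lb_succ', Rb_succ, List.replicate_succ]
    have h1 := (Lb_r_below false true 1 h).ctx [(Kind.l false, 2)] (Rb true 1 h)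
    have h2 := ih.left (letter false)
    simp only [List.append_assoc, List.cons_append, List.nil_append, letter,
      letters_cons] at h1 h2 ⊢
    exact h1.trans h2

/-- `Lk k h`: the left cusps of the zigzags of type `k` -/
def Lk (k : Bool) (h : ℕ) : List Ev := Lb k (if k then 1 else 2) h

/-- `Rk k h`: the right cusps of type `k` -/
def Rk (k : Bool) (h : ℕ) : List Ev := Rb k (if k then 1 else 2) h

lemma strand (k : Bool) (h : ℕ) :
    Pl (Lk k h ++ Rk (!k) h) (letters (List.replicate h k)) := by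
  cases k
  · exact strandB h
  · exact strandA h

end Pool.Agent.Helper88.Leg
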